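import Pool.Agent.W_92892g.GInv

open MeasureTheory Set Filter Topology

namespace BSDG

theorem Asym_log (s : ℂ) (hs : s ≠ 0) : ‖Complex.log s‖ ≤ 4 * (1 + ‖s‖ + ‖s‖⁻¹) := by
  have hn : 0 < ‖s‖ := norm_pos_iff.2 hs
  have h1 : ‖Complex.log s‖ ≤ |Real.log ‖s‖| + |s.arg| := by
    refine (Complex.norm_le_abs_re_add_abs_im _).trans ?_
    rw [Complex.log_re, Complex.log_im]
  have h2 : |s.arg| ≤ Real.pi := Complex.abs_arg_le_pi s
  have h3 : |Real.log ‖s‖| ≤ ‖s‖ + ‖s‖⁻¹ := by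
    have h4 := Real.log_le_sub_one_of_pos hn
    have h5 := Real.log_le_sub_one_of_pos (inv_pos.2 hn)
    rw [Real.log_inv] at h5
    have h6 := inv_pos.2 hn
    rw [abs_le]
    constructor <;> linarith
  have h7 := Real.pi_le_four
  have h6 := inv_pos.2 hn
  linarith

/-- on the line with `b ≥ 3` the logarithm has norm at least `1` -/
theorem Asym_one_le (b y : ℝ) (hb : 3 ≤ b) : 1 ≤ ‖Complex.log (tl b y)‖ := by
  refine le_trans ?_ (log_le_norm_log_tl b y (by linarith))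
  rw [Real.le_log_iff_exp_le (by linarith)]
  have := Real.exp_one_lt_d9
  linarith

/-- continuity of the transformed function on the line -/
theorem Asym_cont (η : ℝ) (hη : 0 < η) (g : ℂ → ℂ) (hg : ContinuousOn g (Ss 2 η)) (b X : ℝ)
    (hb : 3 ≤ b) (hX : Real.pi / (2 * η) < X) :
    Continuous (fun y : ℝ => g (Complex.log (tl b y) / X)) := by
  refine hg.comp_continuous ?_ fun y => logtl_mem b y X η hb hη hX
  have h1 := logtl_cont b (by linarith)
  fun_prop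

theorem Asym_Xpos {η X : ℝ} (hη : 0 < η) (hX : Real.pi / (2 * η) < X) : 0 < X :=
  lt_trans (div_pos Real.pi_pos (by linarith)) hX

/-- integrability of the transformed function on the line -/
theorem Asym_int (η : ℝ) (hη : 0 < η) (g : ℂ → ℂ) (hg : ContinuousOn g (Ss 2 η)) (C : ℝ)
    (hC : ∀ s ∈ Ss 2 η, ‖g s‖ ≤ C * (1 + ‖s‖ + ‖s‖⁻¹)) (b X : ℝ) (hb : 3 ≤ b)
    (hX : Real.pi / (2 * η) < X) :
    Integrable (fun y : ℝ => ker (tl b y) * g (Complex.log (tl b y) / X)) := by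
  have hX0 := Asym_Xpos hη hX
  refine ker_mul_integrable b (by linarith) (fun y : ℝ => g (Complex.log (tl b y) / X))
    (Asym_cont η hη g hg b X hb hX) (|C| * (1 + X⁻¹ + X)) fun y => ?_
  refine (hC _ (logtl_mem b y X η hb hη hX)).trans ?_
  have h1 := Asym_one_le b y hb
  set L := ‖Complex.log (tl b y)‖ with hL
  have h2 : ‖Complex.log (tl b y) / (X : ℂ)‖ = L * X⁻¹ := by
    rw [norm_div, Complex.norm_real, Real.norm_eq_abs, abs_of_pos hX0, div_eq_mul_inv]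
  have h3 : (L * X⁻¹)⁻¹ ≤ X := by
    rw [mul_inv, inv_inv]
    have h4 : L⁻¹ ≤ 1 := inv_le_one_of_one_le₀ h1
    nlinarith
  have hXi : 0 < X⁻¹ := inv_pos.2 hX0
  rw [h2]
  have h5 : 0 ≤ 1 + L * X⁻¹ + (L * X⁻¹)⁻¹ := by positivity
  calc C * (1 + L * X⁻¹ + (L * X⁻¹)⁻¹) ≤ |C| * (1 + L * X⁻¹ + (L * X⁻¹)⁻¹) :=
        mul_le_mul_of_nonneg_right (le_abs_self C) h5
    _ ≤ |C| * (1 + L * X⁻¹ + X) := by gcongr
    _ ≤ |C| * (1 + X⁻¹ + X) * (1 + L) := by
        rw [mul_assoc]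
        refine mul_le_mul_of_nonneg_left ?_ (abs_nonneg C)
        nlinarith [mul_pos (by linarith : 0 < L) hX0, mul_pos (by linarith : 0 < L) hXi]

/-- `log (w / X) = log w - log X` for `w = log t`, `X > 0`; then `LT_one`. -/
theorem LT_log : ∃ κ : ℂ, ∀ X : ℝ, 0 < X → LT Complex.log 3 X = κ - Real.log X := by
  refine ⟨((1 / (2 * Real.pi) : ℝ) : ℂ) *
    ∫ y : ℝ, ker (tl 3 y) * Complex.log (Complex.log (tl 3 y)), fun X hX => ?_⟩
  have hne : ∀ y : ℝ, Complex.log (tl 3 y) ≠ 0 := fun y h => by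
    have h1 := Asym_one_le 3 y le_rfl
    rw [h, norm_zero] at h1
    linarith
  have hsl : ∀ y : ℝ, Complex.log (tl 3 y) ∈ Complex.slitPlane := fun y => by
    refine Or.inl ?_
    rw [Complex.log_re]
    refine Real.log_pos ?_
    have := le_norm_tl 3 y (by norm_num)
    linarith
  have hi : Integrable (fun y : ℝ => ker (tl 3 y) * Complex.log (Complex.log (tl 3 y))) := by
    refine ker_mul_integrable 3 (by norm_num)
      (fun y : ℝ => Complex.log (Complex.log (tl 3 y))) ?_ 8 fun y => ?_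
    · exact (logtl_cont 3 (by norm_num)).clog hsl
    · refine (Asym_log _ (hne y)).trans ?_
      have h1 : ‖Complex.log (tl 3 y)‖⁻¹ ≤ 1 := inv_le_one_of_one_le₀ (Asym_one_le 3 y le_rfl)
      have h2 := norm_nonneg (Complex.log (tl 3 y))
      linarith
  have h1 : LT (fun _ => (1 : ℂ)) 3 1 = 1 := LT_one 3 1 (by norm_num) one_pos
  have h4 : ((1 / (2 * Real.pi) : ℝ) : ℂ) * ∫ y : ℝ, ker (tl 3 y) = 1 := by
    have h5 : ((1 / (2 * Real.pi) : ℝ) : ℂ) * ∫ y : ℝ, ker (tl 3 y) * 1 = 1 := h1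
    simpa only [mul_one] using h5
  have h3 : (∫ y : ℝ, ker (tl 3 y) * Complex.log (Complex.log (tl 3 y) / X)) =
      (∫ y : ℝ, ker (tl 3 y) * Complex.log (Complex.log (tl 3 y))) -
        (∫ y : ℝ, ker (tl 3 y)) * (Real.log X : ℂ) := by
    rw [← integral_mul_const, ← integral_sub hi ((ker_integrable 3 (by norm_num)).mul_const _)]
    refine integral_congr_ae (Filter.Eventually.of_forall fun y => ?_)
    simp only []
    have h6 : Complex.log (tl 3 y) / (X : ℂ) = ((X⁻¹ : ℝ) : ℂ) * Complex.log (tl 3 y) := by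
      rw [Complex.ofReal_inv]
      ring
    rw [h6, Complex.log_ofReal_mul (inv_pos.2 hX) (hne y), Real.log_inv, Complex.ofReal_neg]
    ring
  unfold LT
  rw [h3, mul_sub, ← mul_assoc, h4, one_mul]

/-- Dominated convergence: for `X ≥ 1` large `‖g (log t / X)‖ ≤ C (1 + ‖log t‖)`, and
`log t / X → 0` in `Ss 2 η`. -/
theorem LT_tendsto (η : ℝ) (hη : 0 < η) (g : ℂ → ℂ) (hg : ContinuousOn g (Ss 2 η)) (C : ℝ)
    (hC : ∀ s ∈ Ss 2 η, ‖g s‖ ≤ C * (1 + ‖s‖)) (l : ℂ)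
    (hl : Tendsto g (𝓝[Ss 2 η] 0) (𝓝 l)) :
    Tendsto (fun X : ℝ => LT g 3 X) atTop (𝓝 l) := by
  have h1 : LT (fun _ => (1 : ℂ)) 3 1 = 1 := LT_one 3 1 (by norm_num) one_pos
  have h2 : ((1 / (2 * Real.pi) : ℝ) : ℂ) * ∫ y : ℝ, ker (tl 3 y) * l = l := by
    have h3 : (∫ y : ℝ, ker (tl 3 y) * l) = (∫ y : ℝ, ker (tl 3 y) * 1) * l := by
      rw [← integral_mul_const]
      simp only [mul_one]
    rw [h3, ← mul_assoc]
    have h4 : ((1 / (2 * Real.pi) : ℝ) : ℂ) * ∫ y : ℝ, ker (tl 3 y) * 1 = 1 := h1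
    rw [h4, one_mul]
  rw [← h2]
  unfold LT
  refine Tendsto.const_mul _ ?_
  have hev : ∀ᶠ X : ℝ in atTop, Real.pi / (2 * η) < X ∧ 1 ≤ X :=
    (eventually_gt_atTop _).and (eventually_ge_atTop _)
  refine tendsto_integral_filter_of_dominated_convergence
    (fun y : ℝ => ‖ker (tl 3 y) * ((|C| * (1 + ‖Complex.log (tl 3 y)‖) : ℝ) : ℂ)‖) ?_ ?_ ?_ ?_
  · filter_upwards [hev] with X hX
    exact ((ker_cont 3 (by norm_num)).mul
      (Asym_cont η hη g hg 3 X le_rfl hX.1)).aestronglyMeasurable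
  · filter_upwards [hev] with X hX
    refine Filter.Eventually.of_forall fun y => ?_
    rw [norm_mul, norm_mul]
    refine mul_le_mul_of_nonneg_left ?_ (norm_nonneg _)
    have hX0 : 0 < X := by linarith [hX.2]
    have hle : ‖Complex.log (tl 3 y) / (X : ℂ)‖ ≤ ‖Complex.log (tl 3 y)‖ := by
      rw [norm_div, Complex.norm_real, Real.norm_eq_abs, abs_of_pos hX0]
      exact div_le_self (norm_nonneg _) hX.2
    have h0 : 0 ≤ |C| * (1 + ‖Complex.log (tl 3 y)‖) := by positivity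
    rw [Complex.norm_real, Real.norm_eq_abs, abs_of_nonneg h0]
    refine (hC _ (logtl_mem 3 y X η le_rfl hη hX.1)).trans ?_
    refine (mul_le_mul_of_nonneg_right (le_abs_self C) (by positivity)).trans ?_
    gcongr
  · refine (ker_mul_integrable 3 (by norm_num)
      (fun y : ℝ => ((|C| * (1 + ‖Complex.log (tl 3 y)‖) : ℝ) : ℂ)) ?_ |C| fun y => ?_).norm
    · have h1 := logtl_cont 3 (by norm_num)
      fun_prop
    · have h0 : 0 ≤ |C| * (1 + ‖Complex.log (tl 3 y)‖) := by positivity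
      rw [Complex.norm_real, Real.norm_eq_abs, abs_of_nonneg h0]
  · refine Filter.Eventually.of_forall fun y => ?_
    refine Tendsto.const_mul _ (hl.comp ?_)
    refine tendsto_nhdsWithin_iff.2 ⟨?_, ?_⟩
    · have h3 : Tendsto (fun X : ℝ => ((X⁻¹ : ℝ) : ℂ)) atTop (𝓝 ((0 : ℝ) : ℂ)) :=
        (Complex.continuous_ofReal.tendsto 0).comp tendsto_inv_atTop_zero
      have h4 := h3.const_mul (Complex.log (tl 3 y))
      rw [Complex.ofReal_zero, mul_zero] at h4
      refine h4.congr fun X => ?_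
      rw [Complex.ofReal_inv, div_eq_mul_inv]
    · filter_upwards [hev] with X hX
      exact logtl_mem 3 y X η le_rfl hη hX.1

/-- Linearity of the line transform, for functions continuous on `Ss 2 η` with the bound of
`LT_shift`, `b ≥ 3`. -/
theorem LT_add (η : ℝ) (hη : 0 < η) (g h : ℂ → ℂ) (hg : ContinuousOn g (Ss 2 η))
    (hh : ContinuousOn h (Ss 2 η)) (C D : ℝ)
    (hC : ∀ s ∈ Ss 2 η, ‖g s‖ ≤ C * (1 + ‖s‖ + ‖s‖⁻¹))
    (hD : ∀ s ∈ Ss 2 η, ‖h s‖ ≤ D * (1 + ‖s‖ + ‖s‖⁻¹)) (q : ℂ) (b X : ℝ) (hb : 3 ≤ b)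
    (hX : Real.pi / (2 * η) < X) :
    LT (fun s => g s + q * h s) b X = LT g b X + q * LT h b X := by
  have h1 := Asym_int η hη g hg C hC b X hb hX
  have h2 := Asym_int η hη h hh D hD b X hb hX
  unfold LT
  have h3 : (∫ y : ℝ, ker (tl b y) * (g (Complex.log (tl b y) / X) +
      q * h (Complex.log (tl b y) / X))) =
      (∫ y : ℝ, ker (tl b y) * g (Complex.log (tl b y) / X)) +
        q * ∫ y : ℝ, ker (tl b y) * h (Complex.log (tl b y) / X) := by
    rw [← integral_const_mul, ← integral_add h1 (h2.const_mul q)]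
    refine integral_congr_ae (Filter.Eventually.of_forall fun y => ?_)
    simp only []
    ring
  rw [h3]
  ring

/-- `‖log s‖ ≤ |log ‖s‖| + π/2 ≤ 2 (1 + ‖s‖ + ‖s‖⁻¹)`. -/
theorem norm_log_le (s : ℂ) (hs : s ≠ 0) : ‖Complex.log s‖ ≤ 4 * (1 + ‖s‖ + ‖s‖⁻¹) :=
  Asym_log s hs

end BSDG
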