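import Mathlib

open Set Filter Topology

namespace BSDG

theorem Factor_open : IsOpen {s : ℂ | s ≠ 0 ∧ |s.im| < 1} := by
  have h1 : IsOpen {s : ℂ | s ≠ 0} := isOpen_ne
  have h2 : IsOpen {s : ℂ | |s.im| < 1} :=
    isOpen_lt (continuous_abs.comp Complex.continuous_im) continuous_const
  exact h1.inter h2

theorem Factor_ne {x : ℝ} {s : ℂ} (hs : |s.im| < 1) (h : s ≠ x) :
    1 - Complex.exp ((x : ℂ) - s) ≠ 0 := by
  intro h0
  have h1 : Complex.exp ((x : ℂ) - s) = 1 := (sub_eq_zero.1 h0).symm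
  obtain ⟨n, hn⟩ := Complex.exp_eq_one_iff.1 h1
  have him : -s.im = n * (2 * Real.pi) := by
    have := congrArg Complex.im hn
    simpa using this
  have hn0 : n = 0 := by
    by_contra hne
    have h2 : (1 : ℝ) ≤ |(n : ℝ)| := by exact_mod_cast Int.one_le_abs hne
    have h3 : |s.im| = |(n : ℝ)| * (2 * Real.pi) := by
      rw [← abs_neg, him, abs_mul, abs_of_pos (by positivity : (0 : ℝ) < 2 * Real.pi)]
    have h4 := Real.pi_gt_three
    nlinarith
  rw [hn0, Int.cast_zero, zero_mul, sub_eq_zero] at hn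
  exact h hn.symm

/-- one zero -/
theorem Factor_one (G : ℂ → ℂ) (hG : DifferentiableOn ℂ G {s : ℂ | s ≠ 0 ∧ |s.im| < 1})
    (x : ℝ) (hx : 0 < x) (h0 : ¬ ∀ᶠ s in 𝓝 (x : ℂ), G s = 0) :
    ∃ (m : ℕ) (G1 : ℂ → ℂ), DifferentiableOn ℂ G1 {s : ℂ | s ≠ 0 ∧ |s.im| < 1} ∧ G1 x ≠ 0 ∧
      ∀ s : ℂ, s ≠ 0 → |s.im| < 1 → G s = G1 s * (1 - Complex.exp ((x : ℂ) - s)) ^ m := by
  have hxD : (x : ℂ) ∈ {s : ℂ | s ≠ 0 ∧ |s.im| < 1} := by
    refine ⟨Complex.ofReal_ne_zero.2 hx.ne', ?_⟩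
    rw [Complex.ofReal_im, abs_zero]
    norm_num
  have hGx : AnalyticAt ℂ G x := hG.analyticAt (Factor_open.mem_nhds hxD)
  obtain ⟨m, g, hg, hg0, hgG⟩ := hGx.exists_eventuallyEq_pow_smul_nonzero_iff.2 h0
  have he : Differentiable ℂ (fun s : ℂ => 1 - Complex.exp ((x : ℂ) - s)) := by fun_prop
  set u : ℂ → ℂ := dslope (fun s : ℂ => 1 - Complex.exp ((x : ℂ) - s)) x with hu
  have hud : DifferentiableOn ℂ u univ :=
    (Complex.differentiableOn_dslope univ_mem).2 he.differentiableOn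
  have hux : u x = 1 := by
    rw [hu, dslope_same]
    have h1 : HasDerivAt (fun s : ℂ => 1 - Complex.exp ((x : ℂ) - s))
        (-(Complex.exp ((x : ℂ) - x) * (-1))) (x : ℂ) := by
      have h2 : HasDerivAt (fun s : ℂ => (x : ℂ) - s) (-1) (x : ℂ) :=
        (hasDerivAt_id (x : ℂ)).const_sub (x : ℂ)
      exact h2.cexp.const_sub 1
    rw [h1.deriv, sub_self, Complex.exp_zero]
    ring
  have hus : ∀ s : ℂ, 1 - Complex.exp ((x : ℂ) - s) = (s - x) * u s := by
    intro s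
    have h1 := sub_smul_dslope (fun s : ℂ => 1 - Complex.exp ((x : ℂ) - s)) x s
    rw [smul_eq_mul] at h1
    rw [hu, h1, sub_self, Complex.exp_zero, sub_self, sub_zero]
  classical
  refine ⟨m, fun s => if s = x then g x else G s / (1 - Complex.exp ((x : ℂ) - s)) ^ m, ?_, ?_, ?_⟩
  · intro s hs
    by_cases hsx : s = x
    · have h1 : DifferentiableAt ℂ (fun s => g s / u s ^ m) x := by
        refine hg.differentiableAt.div (((hud.differentiableAt univ_mem)).pow m) ?_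
        rw [hux, one_pow]
        exact one_ne_zero
      have h2 : (fun s => if s = x then g x else G s / (1 - Complex.exp ((x : ℂ) - s)) ^ m) =ᶠ[𝓝
          (x : ℂ)] (fun s => g s / u s ^ m) := by
        have hux0 : ∀ᶠ s in 𝓝 (x : ℂ), u s ≠ 0 := by
          refine ((hud.differentiableAt univ_mem).continuousAt).eventually_ne ?_
          rw [hux]
          exact one_ne_zero
        filter_upwards [hgG, hux0] with z hz hz0
        by_cases hzx : z = x
        · rw [if_pos hzx, hzx, hux, one_pow, div_one]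
        · rw [if_neg hzx, hz, hus, smul_eq_mul, mul_pow]
          have h3 : (z - x) ^ m ≠ 0 := pow_ne_zero _ (sub_ne_zero.2 hzx)
          rw [mul_div_mul_left _ _ h3]
      rw [hsx]
      exact (h1.congr_of_eventuallyEq h2).differentiableWithinAt
    · have h1 : DifferentiableAt ℂ (fun s => G s / (1 - Complex.exp ((x : ℂ) - s)) ^ m) s := by
        refine (hG.differentiableAt (Factor_open.mem_nhds hs)).div ((he s).pow m) ?_
        exact pow_ne_zero _ (Factor_ne hs.2 hsx)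
      have h2 : (fun s => if s = x then g x else G s / (1 - Complex.exp ((x : ℂ) - s)) ^ m) =ᶠ[𝓝 s]
          (fun s => G s / (1 - Complex.exp ((x : ℂ) - s)) ^ m) := by
        filter_upwards [isOpen_ne.mem_nhds hsx] with z hz
        rw [if_neg hz]
      exact (h1.congr_of_eventuallyEq h2).differentiableWithinAt
  · beta_reduce
    rw [if_pos rfl]
    exact hg0
  · intro s hs0 hs
    beta_reduce
    by_cases hsx : s = x
    · rw [if_pos hsx, hsx]
      have h1 := hgG.self_of_nhds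
      rw [h1, hus, smul_eq_mul, sub_self, zero_mul, mul_comm]
    · rw [if_neg hsx, div_mul_cancel₀ _ (pow_ne_zero _ (Factor_ne hs hsx))]

/-- finitely many zeros -/
theorem Factor_many (P : Finset ℝ) (hP : ∀ x ∈ P, 0 < x) (G : ℂ → ℂ)
    (hG : DifferentiableOn ℂ G {s : ℂ | s ≠ 0 ∧ |s.im| < 1})
    (h0 : ∀ z : ℂ, z ≠ 0 → |z.im| < 1 → ¬ ∀ᶠ s in 𝓝 z, G s = 0) :
    ∃ (xs : List ℝ) (G1 : ℂ → ℂ), (∀ x ∈ xs, 0 < x) ∧
      DifferentiableOn ℂ G1 {s : ℂ | s ≠ 0 ∧ |s.im| < 1} ∧ (∀ x ∈ P, G1 (x : ℂ) ≠ 0) ∧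
      ∀ s : ℂ, s ≠ 0 → |s.im| < 1 →
        G s = G1 s * (xs.map (fun x : ℝ => 1 - Complex.exp ((x : ℂ) - s))).prod := by
  classical
  induction P using Finset.induction_on with
  | empty =>
    refine ⟨[], G, ?_, hG, ?_, ?_⟩
    · intro x hx
      exact absurd hx List.not_mem_nil
    · intro x hx
      exact absurd hx (Finset.notMem_empty x)
    · intro s _ _
      rw [List.map_nil, List.prod_nil, mul_one]
  | insert x P hx ih =>
    obtain ⟨xs, G1, h1, h2, h3, h4⟩ := ih fun y hy => hP y (Finset.mem_insert_of_mem hy)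
    have hx0 := hP x (Finset.mem_insert_self x P)
    have hxim : |((x : ℝ) : ℂ).im| < 1 := by
      rw [Complex.ofReal_im, abs_zero]
      norm_num
    have hxne : (x : ℂ) ≠ 0 := Complex.ofReal_ne_zero.2 hx0.ne'
    obtain ⟨m, G2, h5, h6, h7⟩ := Factor_one G1 h2 x hx0 (by
      intro h
      refine h0 x hxne hxim ?_
      filter_upwards [h, Factor_open.mem_nhds ⟨hxne, hxim⟩] with s hs hsD
      rw [h4 s hsD.1 hsD.2, hs, zero_mul])
    refine ⟨List.replicate m x ++ xs, G2, ?_, h5, ?_, ?_⟩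
    · intro y hy
      rcases List.mem_append.1 hy with hy | hy
      · rw [List.eq_of_mem_replicate hy]
        exact hx0
      · exact h1 y hy
    · intro y hy
      rcases Finset.mem_insert.1 hy with rfl | hy'
      · exact h6
      · intro hy0
        refine h3 y hy' ?_
        rw [h7 y (Complex.ofReal_ne_zero.2 (hP y hy).ne') (by
          rw [Complex.ofReal_im, abs_zero]
          norm_num), hy0, zero_mul]
    · intro s hs hs'
      rw [h4 s hs hs', h7 s hs hs', List.map_append, List.prod_append, List.map_replicate,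
        List.prod_replicate, mul_assoc]

theorem Factor_zeros (F : ℂ → ℂ) (hF : DifferentiableOn ℂ F {0}ᶜ) (R ρ : ℝ) (hρ : 0 < ρ)
    (far : ∀ s : ℂ, |s.im| ≤ 1 → R ≤ s.re → F s ≠ 0)
    (near : ∀ s : ℂ, s ≠ 0 → ‖s‖ < ρ → F s ≠ 0) :
    (∀ z : ℂ, z ≠ 0 → ¬ ∃ᶠ s in 𝓝[≠] z, F s = 0) ∧
    {s : ℂ | s ≠ 0 ∧ 0 ≤ s.re ∧ |s.im| ≤ 1 / 2 ∧ F s = 0}.Finite := by
  have hFa : AnalyticOnNhd ℂ F {0}ᶜ := hF.analyticOnNhd isOpen_compl_singleton
  have hpc : IsPreconnected ({0}ᶜ : Set ℂ) :=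
    (isConnected_compl_singleton_of_one_lt_rank (by
      rw [Complex.rank_real_complex]
      norm_num) 0).isPreconnected
  have hnz : ∀ z : ℂ, z ≠ 0 → ¬ ∃ᶠ s in 𝓝[≠] z, F s = 0 := by
    intro z hz h
    have h1 := hFa.eqOn_zero_of_preconnected_of_frequently_eq_zero hpc hz h
    have h2 : (((max R 1 : ℝ) : ℂ)) ∈ ({0}ᶜ : Set ℂ) := by
      rw [mem_compl_singleton_iff, Complex.ofReal_ne_zero]
      exact (lt_of_lt_of_le one_pos (le_max_right R 1)).ne'
    refine far ((max R 1 : ℝ) : ℂ) ?_ ?_ (h1 h2)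
    · rw [Complex.ofReal_im, abs_zero]
      norm_num
    · rw [Complex.ofReal_re]
      exact le_max_left _ _
  refine ⟨hnz, ?_⟩
  by_contra hinf
  have hK : IsCompact {s : ℂ | ρ ≤ ‖s‖ ∧ (0 ≤ s.re ∧ s.re ≤ R) ∧ |s.im| ≤ 1 / 2} := by
    refine Metric.isCompact_of_isClosed_isBounded ?_ ?_
    · refine (isClosed_le continuous_const continuous_norm).inter (IsClosed.inter
        ((isClosed_le continuous_const Complex.continuous_re).inter
          (isClosed_le Complex.continuous_re continuous_const)) ?_)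
      exact isClosed_le (continuous_abs.comp Complex.continuous_im) continuous_const
    · refine (Metric.isBounded_closedBall (x := (0 : ℂ)) (r := R + 1 / 2)).subset ?_
      rintro s ⟨-, ⟨h1, h2⟩, h3⟩
      rw [mem_closedBall_zero_iff]
      calc ‖s‖ ≤ |s.re| + |s.im| := Complex.norm_le_abs_re_add_abs_im s
        _ ≤ R + 1 / 2 := by
          rw [abs_of_nonneg h1]
          exact add_le_add h2 h3
  obtain ⟨z, hzK, hz⟩ := Set.Infinite.exists_accPt_of_subset_isCompact hinf hK (by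
    rintro s ⟨h1, h2, h3, h4⟩
    refine ⟨?_, ⟨h2, ?_⟩, h3⟩
    · by_contra h5
      exact near s h1 (not_le.1 h5) h4
    · by_contra h5
      exact far s (by linarith) (not_le.1 h5).le h4)
  have hz0 : z ≠ 0 := by
    rintro rfl
    have := hzK.1
    rw [norm_zero] at this
    linarith
  refine hnz z hz0 ?_
  rw [accPt_iff_frequently_nhdsNE] at hz
  exact hz.mono fun s hs => hs.2.2.2

theorem Factor_eta (T : Set ℂ) (hT : T.Finite) :
    ∃ η : ℝ, 0 < η ∧ η ≤ 1 / 2 ∧ ∀ z ∈ T, z.im ≠ 0 → η < |z.im| := by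
  have h1 : ∀ᶠ η in 𝓝[>] (0 : ℝ), ∀ z ∈ T, z.im ≠ 0 → η < |z.im| := by
    rw [eventually_all_finite hT]
    intro z _
    by_cases hz : z.im = 0
    · exact Eventually.of_forall fun η h => absurd hz h
    · have h2 : Iio |z.im| ∈ 𝓝 (0 : ℝ) := isOpen_Iio.mem_nhds (abs_pos.2 hz)
      filter_upwards [mem_nhdsWithin_of_mem_nhds h2] with η hη _
      exact hη
  have h2 : ∀ᶠ η in 𝓝[>] (0 : ℝ), η ≤ 1 / 2 :=
    mem_nhdsWithin_of_mem_nhds (Iic_mem_nhds (by norm_num))
  have h3 : ∀ᶠ η in 𝓝[>] (0 : ℝ), 0 < η := self_mem_nhdsWithin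
  obtain ⟨η, ha, hb, hc⟩ := (h1.and (h2.and h3)).exists
  exact ⟨η, hc, hb, ha⟩

/-- The zeros of `F` in `{s ≠ 0, 0 ≤ Re s, |Im s| ≤ 1/2}` lie in a compact subset of `ℂ \ {0}`
(by `far`, `near`), so they are finitely many, with finite orders (`F` is not identically `0`, and
`ℂ \ {0}` is preconnected); `η < 1/2` smaller than the imaginary parts of the non real ones.
Dividing `F` by `1 - e^{x-s}`, whose only zero with `|Im s| < 1` is the simple zero `s = x`, gives
a function holomorphic on `{s ≠ 0, |Im s| < 1}` (removable singularity at `x`) whose order at `x`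
is one less and whose other zeros there are the same: induction on the sum of the orders of the
positive zeros. -/
theorem factor (F : ℂ → ℂ) (hF : DifferentiableOn ℂ F {0}ᶜ) (R ρ : ℝ) (hρ : 0 < ρ)
    (far : ∀ s : ℂ, |s.im| ≤ 1 → R ≤ s.re → F s ≠ 0)
    (near : ∀ s : ℂ, s ≠ 0 → ‖s‖ < ρ → F s ≠ 0) :
    ∃ (η : ℝ) (xs : List ℝ) (F1 : ℂ → ℂ), 0 < η ∧ η < 1 ∧ (∀ x ∈ xs, 0 < x) ∧
      DifferentiableOn ℂ F1 {s : ℂ | s ≠ 0 ∧ |s.im| < 1} ∧
      (∀ s : ℂ, s ≠ 0 → 0 ≤ s.re → |s.im| ≤ η → F1 s ≠ 0) ∧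
      ∀ s : ℂ, s ≠ 0 → |s.im| < 1 →
        F s = F1 s * (xs.map (fun x : ℝ => 1 - Complex.exp ((x : ℂ) - s))).prod := by
  obtain ⟨hnz, hfin⟩ := Factor_zeros F hF R ρ hρ far near
  obtain ⟨η, hη0, hη1, hη⟩ := Factor_eta _ hfin
  have hPf : {x : ℝ | 0 < x ∧ F x = 0}.Finite := by
    refine (hfin.preimage (f := fun x : ℝ => (x : ℂ))
      (Complex.ofReal_injective.injOn)).subset ?_
    rintro x ⟨h1, h2⟩
    refine ⟨Complex.ofReal_ne_zero.2 h1.ne', ?_, ?_, h2⟩
    · rw [Complex.ofReal_re]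
      exact h1.le
    · rw [Complex.ofReal_im, abs_zero]
      norm_num
  obtain ⟨xs, F1, h1, h2, h3, h4⟩ := Factor_many hPf.toFinset
    (fun x hx => ((Set.Finite.mem_toFinset hPf).1 hx).1) F
    (hF.mono fun s hs => hs.1) (fun z hz _ h => hnz z hz
      ((h.filter_mono nhdsWithin_le_nhds).frequently))
  refine ⟨η, xs, F1, hη0, by linarith, h1, h2, ?_, h4⟩
  intro s hs0 hs1 hs2 hF1
  have hs3 : |s.im| < 1 := by linarith
  have hFs : F s = 0 := by
    rw [h4 s hs0 hs3, hF1, zero_mul]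
  by_cases him : s.im = 0
  · have hsr : s = ((s.re : ℝ) : ℂ) := by
      apply Complex.ext
      · rw [Complex.ofReal_re]
      · rw [Complex.ofReal_im, him]
    have hre : 0 < s.re := by
      rcases hs1.lt_or_eq with h | h
      · exact h
      · exfalso
        apply hs0
        rw [hsr, ← h, Complex.ofReal_zero]
    refine h3 s.re ((Set.Finite.mem_toFinset hPf).2 ⟨hre, ?_⟩) ?_
    · rw [← hsr]
      exact hFs
    · rw [← hsr]
      exact hF1
  · have := hη s ⟨hs0, hs1, by linarith, hFs⟩ him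
    linarith

end BSDG
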