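import Pool.Agent.W_92892c.SectorCauchy

open Set Filter Topology

namespace BSDG

/-- Holomorphic logarithm on a convex open set: a primitive of `F'/F`
(`BSDS.primitive_convex`), corrected by a constant. -/
theorem exists_log (U : Set ℂ) (hU : IsOpen U) (hc : Convex ℝ U) (F : ℂ → ℂ)
    (hF : DifferentiableOn ℂ F U) (hne : ∀ s ∈ U, F s ≠ 0) (s₀ e₀ : ℂ) (hs₀ : s₀ ∈ U)
    (he : Complex.exp e₀ = F s₀) :
    ∃ G : ℂ → ℂ, DifferentiableOn ℂ G U ∧ (∀ s ∈ U, Complex.exp (G s) = F s) ∧ G s₀ = e₀ := by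
  have hd : DifferentiableOn ℂ (deriv F) U := hF.deriv hU
  obtain ⟨L, hL⟩ := BSDS.primitive_convex U hU hc (fun s => deriv F s / F s) (hd.div hF hne)
  have hG : ∀ s ∈ U, HasDerivAt (fun s => L s - L s₀ + e₀) (deriv F s / F s) s := by
    intro s hs
    have h1 := ((hL s hs).sub_const (L s₀)).add_const e₀
    exact h1
  refine ⟨fun s => L s - L s₀ + e₀, fun s hs => (hG s hs).differentiableAt.differentiableWithinAt,
    ?_, by simp⟩
  have hK : ∀ s ∈ U, HasDerivAt (fun s => F s * Complex.exp (-(L s - L s₀ + e₀))) 0 s := by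
    intro s hs
    have h1 : HasDerivAt F (deriv F s) s :=
      (hF.differentiableAt (hU.mem_nhds hs)).hasDerivAt
    have h2 : HasDerivAt (fun s => Complex.exp (-(L s - L s₀ + e₀)))
        (Complex.exp (-(L s - L s₀ + e₀)) * -(deriv F s / F s)) s := (hG s hs).neg.cexp
    have h3 := h1.mul h2
    have h4 : deriv F s * Complex.exp (-(L s - L s₀ + e₀)) +
        F s * (Complex.exp (-(L s - L s₀ + e₀)) * -(deriv F s / F s)) = 0 := by
      have h5 := hne s hs
      field_simp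
      ring
    rw [h4] at h3
    exact h3
  intro s hs
  have h1 : F s * Complex.exp (-(L s - L s₀ + e₀)) = F s₀ * Complex.exp (-(L s₀ - L s₀ + e₀)) :=
    hU.is_const_of_deriv_eq_zero hc.isPreconnected
      (fun z hz => (hK z hz).differentiableAt.differentiableWithinAt)
      (fun z hz => (hK z hz).deriv) hs hs₀
  rw [sub_self, zero_add, ← he, Complex.exp_neg e₀, mul_inv_cancel₀ (Complex.exp_ne_zero _),
    Complex.exp_neg, mul_inv_eq_one₀ (Complex.exp_ne_zero _)] at h1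
  exact h1.symm

/-- `(G - E)/(2πi)` is continuous and integer valued on a preconnected set. -/
theorem log_unique (S : Set ℂ) (hS : IsPreconnected S) (G E : ℂ → ℂ) (hG : ContinuousOn G S)
    (hE : ContinuousOn E S) (h : ∀ s ∈ S, Complex.exp (G s) = Complex.exp (E s)) (s₀ : ℂ)
    (hs₀ : s₀ ∈ S) (h0 : G s₀ = E s₀) : ∀ s ∈ S, G s = E s := by
  have hpi : (2 * (Real.pi : ℂ) * Complex.I) ≠ 0 := Complex.two_pi_I_ne_zero
  have hint : ∀ s ∈ S, ∃ n : ℤ, (G s - E s) / (2 * Real.pi * Complex.I) = n := by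
    intro s hs
    obtain ⟨n, hn⟩ := Complex.exp_eq_exp_iff_exists_int.mp (h s hs)
    refine ⟨n, ?_⟩
    rw [hn, add_sub_cancel_left, mul_div_assoc, div_self hpi, mul_one]
  obtain ⟨D, hD⟩ : ∃ D : ℂ → ℝ, D = fun s => ((G s - E s) / (2 * Real.pi * Complex.I)).re :=
    ⟨_, rfl⟩
  have hDc : ContinuousOn D S := by
    rw [hD]
    exact Complex.continuous_re.comp_continuousOn ((hG.sub hE).div_const _)
  have hDi : ∀ s ∈ S, ∃ n : ℤ, D s = n := by
    intro s hs
    obtain ⟨n, hn⟩ := hint s hs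
    refine ⟨n, ?_⟩
    rw [hD]
    simp only
    rw [hn, Complex.intCast_re]
  have hD0 : D s₀ = 0 := by
    rw [hD]
    simp only
    rw [h0, sub_self, zero_div, Complex.zero_re]
  have himg : IsPreconnected (D '' S) := hS.image D hDc
  intro s hs
  obtain ⟨n, hn⟩ := hDi s hs
  have hn0 : n = 0 := by
    by_contra hne
    rcases lt_or_gt_of_ne hne with hlt | hgt
    · have h1 : (-(1 / 2) : ℝ) ∈ D '' S := by
        refine himg.Icc_subset ⟨s, hs, rfl⟩ ⟨s₀, hs₀, rfl⟩ ⟨?_, ?_⟩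
        · rw [hn]
          have : (n : ℝ) ≤ -1 := by exact_mod_cast (by omega : n ≤ -1)
          linarith
        · rw [hD0]; norm_num
      obtain ⟨z, hz, hz1⟩ := h1
      obtain ⟨m, hm⟩ := hDi z hz
      rw [hm] at hz1
      have h2 : ((2 * m : ℤ) : ℝ) = ((-1 : ℤ) : ℝ) := by push_cast; linarith
      have h3 : (2 * m : ℤ) = -1 := by exact_mod_cast h2
      omega
    · have h1 : ((1 / 2) : ℝ) ∈ D '' S := by
        refine himg.Icc_subset ⟨s₀, hs₀, rfl⟩ ⟨s, hs, rfl⟩ ⟨?_, ?_⟩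
        · rw [hD0]; norm_num
        · rw [hn]
          have : (1 : ℝ) ≤ n := by exact_mod_cast (by omega : 1 ≤ n)
          linarith
      obtain ⟨z, hz, hz1⟩ := h1
      obtain ⟨m, hm⟩ := hDi z hz
      rw [hm] at hz1
      have h2 : ((2 * m : ℤ) : ℝ) = ((1 : ℤ) : ℝ) := by push_cast; linarith
      have h3 : (2 * m : ℤ) = 1 := by exact_mod_cast h2
      omega
  obtain ⟨m, hm⟩ := hint s hs
  have hmn : (m : ℝ) = n := by
    rw [← hn, hD]
    simp only
    rw [hm, Complex.intCast_re]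
  have hm0 : m = 0 := by
    have : m = n := by exact_mod_cast hmn
    rw [this, hn0]
  rw [hm0, Int.cast_zero, div_eq_zero_iff] at hm
  exact sub_eq_zero.mp (hm.resolve_right hpi)

/-- `S` convex, `0` in its closure, `g` continuous on `S`, `exp g → ℓ ≠ 0` at `0`: then `g` has a
limit `l` with `exp l = ℓ`.  (On `S ∩ ball 0 ρ`, convex, `g - log ℓ - log (exp (g - log ℓ))` is
continuous with values in `2πiℤ`, so constant.) -/
theorem log_limit (S : Set ℂ) (hS : Convex ℝ S) (g : ℂ → ℂ) (hg : ContinuousOn g S) (ℓ : ℂ)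
    (hℓ : ℓ ≠ 0) (h : Tendsto (fun s => Complex.exp (g s)) (𝓝[S] 0) (𝓝 ℓ)) :
    ∃ l : ℂ, Complex.exp l = ℓ ∧ Tendsto g (𝓝[S] 0) (𝓝 l) := by
  rcases eq_or_neBot (𝓝[S] (0 : ℂ)) with hbot | hne
  · exact ⟨Complex.log ℓ, Complex.exp_log hℓ, by rw [hbot]; exact tendsto_bot⟩
  have h1 : Tendsto (fun s => Complex.exp (g s) / ℓ) (𝓝[S] 0) (𝓝 1) := by
    have := h.div_const ℓ
    rwa [div_self hℓ] at this
  have h2 : ∀ᶠ s in 𝓝[S] (0 : ℂ), Complex.exp (g s) / ℓ ∈ Metric.ball (1 : ℂ) 1 :=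
    h1.eventually (Metric.ball_mem_nhds _ one_pos)
  obtain ⟨ρ, hρ, hball⟩ := Metric.mem_nhdsWithin_iff.mp h2
  have hslit : ∀ s ∈ Metric.ball (0 : ℂ) ρ ∩ S, Complex.exp (g s) / ℓ ∈ Complex.slitPlane :=
    fun s hs => Complex.ball_one_subset_slitPlane (hball hs)
  have hS' : Convex ℝ (Metric.ball (0 : ℂ) ρ ∩ S) := (convex_ball _ _).inter hS
  have hg' : ContinuousOn g (Metric.ball (0 : ℂ) ρ ∩ S) := hg.mono inter_subset_right
  obtain ⟨E, hE⟩ : ∃ E : ℂ → ℂ, E = fun s => Complex.log (Complex.exp (g s) / ℓ) + Complex.log ℓ :=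
    ⟨_, rfl⟩
  have hEc : ContinuousOn E (Metric.ball (0 : ℂ) ρ ∩ S) := by
    rw [hE]
    exact ((hg'.cexp.div_const ℓ).clog hslit).add continuousOn_const
  have hEe : ∀ s, Complex.exp (E s) = Complex.exp (g s) := by
    intro s
    rw [hE]
    simp only
    rw [Complex.exp_add, Complex.exp_log hℓ, Complex.exp_log (div_ne_zero (Complex.exp_ne_zero _) hℓ),
      div_mul_cancel₀ _ hℓ]
  have hmem : Metric.ball (0 : ℂ) ρ ∩ S ∈ 𝓝[S] (0 : ℂ) :=
    inter_mem (mem_nhdsWithin_of_mem_nhds (Metric.ball_mem_nhds _ hρ)) self_mem_nhdsWithin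
  obtain ⟨s₀, hs₀⟩ := hne.nonempty_of_mem hmem
  obtain ⟨c, hc⟩ : ∃ c : ℂ, c = g s₀ - E s₀ := ⟨_, rfl⟩
  have hc1 : Complex.exp c = 1 := by
    rw [hc, Complex.exp_sub, hEe, div_self (Complex.exp_ne_zero _)]
  have h3 := log_unique (Metric.ball (0 : ℂ) ρ ∩ S) hS'.isPreconnected (fun s => g s - c) E
    (hg'.sub continuousOn_const) hEc
    (fun s _ => by rw [Complex.exp_sub, hc1, div_one, hEe]) s₀ hs₀ (by rw [hc]; ring)
  refine ⟨Complex.log ℓ + c, by rw [Complex.exp_add, Complex.exp_log hℓ, hc1, mul_one], ?_⟩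
  have h4 : Tendsto (fun s => Complex.log (Complex.exp (g s) / ℓ) + Complex.log ℓ + c) (𝓝[S] 0)
      (𝓝 (Complex.log ℓ + c)) := by
    have h5 := ((h1.clog Complex.one_mem_slitPlane).add_const (Complex.log ℓ)).add_const c
    rwa [Complex.log_one, zero_add] at h5
  refine h4.congr' ?_
  filter_upwards [hmem] with s hs
  have h5 := h3 s hs
  rw [hE] at h5
  simp only at h5
  rw [← h5, sub_add_cancel]

end BSDG
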