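import Pool.Agent.W_92892g.Ker

open Set Filter Topology

namespace BSDG

/-- Three regions of `Ss 2 (η/2)`: near `0` by the limit; `Re s ≥ A` by `hfar`; in between the set
`{|Im s| ≤ η/2, |Im s| ≤ 2 Re s, ρ ≤ ‖s‖, Re s ≤ A}` is compact and contained in `Ss 3 η`. -/
theorem lin_bound (η : ℝ) (hη : 0 < η) (g : ℂ → ℂ) (hg : ContinuousOn g (Ss 3 η)) (l : ℂ)
    (hl : Tendsto g (𝓝[Ss 3 η] 0) (𝓝 l)) (A M : ℝ)
    (hfar : ∀ s ∈ Ss 3 η, A ≤ s.re → ‖g s‖ ≤ M * (1 + ‖s‖)) :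
    ∃ C : ℝ, ∀ s ∈ Ss 2 (η / 2), ‖g s‖ ≤ C * (1 + ‖s‖) := by
  obtain ⟨ρ, hρ, hnear⟩ : ∃ ρ > 0, ∀ s ∈ Ss 3 η, ‖s‖ < ρ → ‖g s‖ ≤ ‖l‖ + 1 := by
    have h1 : ∀ᶠ s in 𝓝[Ss 3 η] (0 : ℂ), ‖g s‖ < ‖l‖ + 1 :=
      hl.norm.eventually_lt_const (lt_add_one _)
    obtain ⟨ρ, hρ, h2⟩ := Metric.mem_nhdsWithin_iff.1 h1
    refine ⟨ρ, hρ, fun s hs hsρ => ?_⟩
    have h3 : s ∈ Metric.ball (0 : ℂ) ρ ∩ Ss 3 η := ⟨mem_ball_zero_iff.2 hsρ, hs⟩
    exact le_of_lt (h2 h3)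
  set K : Set ℂ := {s | |s.im| ≤ η / 2 ∧ |s.im| ≤ 2 * s.re ∧ ρ ≤ ‖s‖ ∧ s.re ≤ A} with hK
  have hKc : IsClosed K := by
    have e1 : IsClosed {s : ℂ | |s.im| ≤ η / 2} :=
      isClosed_le Complex.continuous_im.abs continuous_const
    have e2 : IsClosed {s : ℂ | |s.im| ≤ 2 * s.re} :=
      isClosed_le Complex.continuous_im.abs (continuous_const.mul Complex.continuous_re)
    have e3 : IsClosed {s : ℂ | ρ ≤ ‖s‖} := isClosed_le continuous_const continuous_norm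
    have e4 : IsClosed {s : ℂ | s.re ≤ A} := isClosed_le Complex.continuous_re continuous_const
    exact e1.inter (e2.inter (e3.inter e4))
  have hKb : K ⊆ Metric.closedBall 0 (A + η / 2) := by
    rintro s ⟨h1, h2, h3, h4⟩
    rw [mem_closedBall_zero_iff]
    have h5 : 0 ≤ s.re := by
      have := abs_nonneg s.im
      linarith
    refine (Complex.norm_le_abs_re_add_abs_im s).trans ?_
    rw [abs_of_nonneg h5]
    linarith
  have hKco : IsCompact K :=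
    (isCompact_closedBall (0 : ℂ) (A + η / 2)).of_isClosed_subset hKc hKb
  have hKs : K ⊆ Ss 3 η := by
    rintro s ⟨h1, h2, h3, h4⟩
    have h5 : 0 ≤ s.re := by
      have := abs_nonneg s.im
      linarith
    have h6 : 0 < s.re := by
      rcases h5.lt_or_eq with h6 | h6
      · exact h6
      · exfalso
        rw [← h6, mul_zero] at h2
        have h7 : s.im = 0 := abs_nonpos_iff.1 h2
        have h8 : s = 0 := Complex.ext h6.symm h7
        rw [h8, norm_zero] at h3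
        linarith
    exact ⟨by linarith, by linarith⟩
  obtain ⟨C₁, hC₁⟩ := hKco.exists_bound_of_continuousOn (hg.mono hKs)
  refine ⟨‖l‖ + 1 + |C₁| + |M|, ?_⟩
  intro s hs
  have hs3 : s ∈ Ss 3 η := Ss_mono (by norm_num) (by norm_num) (by linarith) hs
  have hn := norm_nonneg s
  have hl0 := norm_nonneg l
  have hC0 := abs_nonneg C₁
  have hM0 := abs_nonneg M
  by_cases h1 : ‖s‖ < ρ
  · have h2 := hnear s hs3 h1
    nlinarith [mul_nonneg (by positivity : 0 ≤ ‖l‖ + 1 + |C₁| + |M|) hn]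
  · by_cases h2 : s.re ≤ A
    · have h3 : s ∈ K := ⟨hs.1.le, hs.2.le, not_lt.1 h1, h2⟩
      have h4 := hC₁ s h3
      have h5 := le_abs_self C₁
      nlinarith [mul_nonneg (by positivity : 0 ≤ ‖l‖ + 1 + |C₁| + |M|) hn]
    · have h3 := hfar s hs3 (not_le.1 h2).le
      have h4 := mul_le_mul_of_nonneg_right (le_abs_self M) (by linarith : 0 ≤ 1 + ‖s‖)
      nlinarith [mul_nonneg (by positivity : 0 ≤ ‖l‖ + 1 + |C₁|) (by linarith : 0 ≤ 1 + ‖s‖)]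

end BSDG
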