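import Pool.Agent.W_92892g.Series

open Set Filter Topology

namespace BSDG

/-- `log (1 - e^{x-s}) = - Σ_{n ≥ 0} e^{(n+1)x}/(n+1) e^{-(n+1)s}`. -/
noncomputable def cP (x : ℝ) (n : ℕ) : ℂ := -(((Real.exp (((n : ℝ) + 1) * x) / (n + 1) : ℝ)) : ℂ)

noncomputable def vP (n : ℕ) : ℂ := (n : ℂ) + 1

lemma PFac_vP (n : ℕ) : vP n = (((n : ℝ) + 1 : ℝ) : ℂ) := by
  unfold vP
  push_cast
  rfl

lemma PFac_re (n : ℕ) : (vP n).re = (n : ℝ) + 1 := by
  rw [PFac_vP, Complex.ofReal_re]

lemma PFac_im (n : ℕ) : (vP n).im = 0 := by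
  rw [PFac_vP, Complex.ofReal_im]

lemma PFac_norm (x : ℝ) (n : ℕ) : ‖cP x n‖ = Real.exp (((n : ℝ) + 1) * x) / (n + 1) := by
  unfold cP
  rw [norm_neg, Complex.norm_real, Real.norm_of_nonneg (by positivity)]

theorem GHyp_P (x : ℝ) (hx : 0 < x) : GHyp (cP x) vP 0 (x + 1) where
  cnt := inferInstance
  K0 := le_rfl
  apos := by linarith
  vre := fun n => by rw [PFac_re]; positivity
  vim := fun n => by rw [PFac_im]; simp
  sm := by
    have h1 : Summable (fun n : ℕ => (Real.exp (-1)) ^ n) :=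
      summable_geometric_of_lt_one (Real.exp_pos _).le (by rw [Real.exp_lt_one_iff]; norm_num)
    refine Summable.of_nonneg_of_le (fun n => by positivity) (fun n => ?_) h1
    rw [PFac_norm, PFac_re]
    have h2 : (1 : ℝ) ≤ (n : ℝ) + 1 := by
      have : (0 : ℝ) ≤ (n : ℝ) := Nat.cast_nonneg _
      linarith
    calc Real.exp (((n : ℝ) + 1) * x) / (n + 1) * Real.exp (-((x + 1) * (n + 1)))
        ≤ Real.exp (((n : ℝ) + 1) * x) * Real.exp (-((x + 1) * (n + 1))) := by
          apply mul_le_mul_of_nonneg_right _ (Real.exp_pos _).le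
          exact div_le_self (Real.exp_pos _).le h2
      _ = Real.exp (-((n : ℝ) + 1)) := by
          rw [← Real.exp_add]
          congr 1
          ring
      _ ≤ Real.exp ((n : ℝ) * (-1)) := Real.exp_le_exp.2 (by linarith)
      _ = Real.exp (-1) ^ n := Real.exp_nat_mul _ _

/-- `Complex.hasSum_taylorSeries_neg_log`. -/
theorem exp_Es_P (x : ℝ) (hx : 0 < x) (s : ℂ) (hs : x + 1 ≤ s.re) :
    Complex.exp (Es (cP x) vP s) = 1 - Complex.exp ((x : ℂ) - s) := by
  set z : ℂ := Complex.exp ((x : ℂ) - s) with hz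
  have hz1 : ‖z‖ < 1 := by
    rw [hz, Complex.norm_exp, Real.exp_lt_one_iff, Complex.sub_re, Complex.ofReal_re]
    linarith
  have h1 : HasSum (fun n : ℕ => cP x n * Complex.exp (-(vP n * s))) (Complex.log (1 - z)) := by
    have h2 := (Complex.hasSum_taylorSeries_neg_log' hz1).neg
    rw [neg_neg] at h2
    refine h2.congr_fun ?_
    intro n
    unfold cP vP
    rw [hz, ← Complex.exp_nat_mul]
    push_cast
    have h3 : Complex.exp (((n : ℂ) + 1) * ((x : ℂ) - s)) =
        Complex.exp (((n : ℂ) + 1) * (x : ℂ)) * Complex.exp (-(((n : ℂ) + 1) * s)) := by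
      rw [← Complex.exp_add]
      congr 1
      ring
    rw [h3]
    ring
  have h4 : Es (cP x) vP s = Complex.log (1 - z) := h1.tsum_eq
  rw [h4, Complex.exp_log]
  intro h5
  have h6 : z = 1 := (sub_eq_zero.1 h5).symm
  rw [h6] at hz1
  simp at hz1

lemma PFac_Gamma_le {y : ℝ} (h0 : 0 ≤ y) (h1 : y ≤ 1) : Real.Gamma (2 + y) ≤ 2 := by
  have h2 : Real.Gamma (2 + y) ≤ Real.Gamma 3 :=
    Real.Gamma_strictMonoOn_Ici.monotoneOn (by simp [h0])
      (by simp only [mem_Ici]; norm_num) (by linarith)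
  have h3 : Real.Gamma 3 = 2 := by
    have h4 := Real.Gamma_nat_eq_factorial 2
    have h5 : ((2 : ℕ) : ℝ) + 1 = 3 := by norm_num
    rw [h5] at h4
    rw [h4]
    norm_num [Nat.factorial]
  linarith

lemma PFac_term (x X : ℝ) (n : ℕ) : cP x n * gw (vP n / X) =
    ((-(Real.exp (((n : ℝ) + 1) * x) / (n + 1) * (Real.Gamma (2 + ((n : ℝ) + 1) / X))⁻¹) : ℝ) : ℂ) := by
  unfold gw cP
  rw [PFac_vP]
  have h1 : (2 : ℂ) + (((n : ℝ) + 1 : ℝ) : ℂ) / (X : ℂ) = ((2 + ((n : ℝ) + 1) / X : ℝ) : ℂ) := by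
    push_cast
    rfl
  rw [h1, Complex.Gamma_ofReal]
  push_cast
  ring

/-- All terms of `Gs (cP x) vP X` are real and negative (`Γ > 0` on the positive reals), and the
term `n + 1 = ⌊X⌋` is at most `- e^{⌊X⌋ x} / (2 ⌊X⌋)`, because `Γ(2 + y) ≤ Γ(3) = 2` for
`0 ≤ y ≤ 1`. -/
theorem Gs_P_atBot (x : ℝ) (hx : 0 < x) (A : ℝ) :
    Tendsto (fun X : ℝ => (Gs (cP x) vP X).re + A * Real.log X) atTop atBot := by
  have hmain : ∀ X : ℝ, 1 ≤ X → (Gs (cP x) vP X).re ≤ -(Real.exp ((X - 1) * x) / (2 * X)) := by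
    intro X hX
    have hX0 : 0 < X := by linarith
    have hsum := Gs_summable (GHyp_P x hx) X hX0
    have hsum' := hsum.mapL Complex.reCLM
    have hre : (Gs (cP x) vP X).re = ∑' n : ℕ, (cP x n * gw (vP n / X)).re := by
      unfold Gs
      exact Complex.reCLM.map_tsum hsum
    have hneg : ∀ n : ℕ, (cP x n * gw (vP n / X)).re ≤ 0 := by
      intro n
      rw [PFac_term, Complex.ofReal_re]
      have : 0 < Real.Gamma (2 + ((n : ℝ) + 1) / X) := Real.Gamma_pos_of_pos (by positivity)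
      have h2 : 0 ≤ Real.exp (((n : ℝ) + 1) * x) / (n + 1) *
        (Real.Gamma (2 + ((n : ℝ) + 1) / X))⁻¹ := by positivity
      linarith
    obtain ⟨N, hN⟩ : ∃ N : ℕ, ⌊X⌋₊ = N + 1 := by
      have h2 : 1 ≤ ⌊X⌋₊ := Nat.le_floor (by simpa using hX)
      exact ⟨⌊X⌋₊ - 1, by omega⟩
    have hN1 : ((N : ℝ) + 1) ≤ X := by
      have := Nat.floor_le hX0.le
      rw [hN] at this
      push_cast at this
      exact this
    have hN2 : X - 1 ≤ (N : ℝ) + 1 := by
      have := Nat.lt_floor_add_one X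
      rw [hN] at this
      push_cast at this
      linarith
    have hle : (Gs (cP x) vP X).re ≤ (cP x N * gw (vP N / X)).re := by
      rw [hre]
      have h3 : Summable (fun n : ℕ => -(cP x n * gw (vP n / X)).re) := hsum'.neg
      have h4 := h3.le_tsum N (fun j _ => by have := hneg j; linarith)
      rw [tsum_neg] at h4
      linarith
    refine hle.trans ?_
    rw [PFac_term, Complex.ofReal_re]
    have hNX : ((N : ℝ) + 1) / X ≤ 1 := (div_le_one hX0).2 hN1
    have hG1 := PFac_Gamma_le (show 0 ≤ ((N : ℝ) + 1) / X by positivity) hNX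
    have hG0 : 0 < Real.Gamma (2 + ((N : ℝ) + 1) / X) := Real.Gamma_pos_of_pos (by positivity)
    apply neg_le_neg
    calc Real.exp ((X - 1) * x) / (2 * X) = Real.exp ((X - 1) * x) / X * 2⁻¹ := by
          field_simp
      _ ≤ Real.exp (((N : ℝ) + 1) * x) / (N + 1) * (Real.Gamma (2 + ((N : ℝ) + 1) / X))⁻¹ := by
          apply mul_le_mul _ _ (by norm_num) (by positivity)
          · apply div_le_div₀ (Real.exp_pos _).le _ (by positivity) hN1
            apply Real.exp_le_exp.2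
            exact mul_le_mul_of_nonneg_right hN2 hx.le
          · exact inv_anti₀ hG0 hG1
  have hgrow : ∀ᶠ X : ℝ in atTop, (2 * Real.exp x * (|A| + 1)) * X ^ 2 ≤ Real.exp (x * X) := by
    have h1 := (isLittleO_pow_exp_pos_mul_atTop 2 hx).bound
      (show (0 : ℝ) < (2 * Real.exp x * (|A| + 1))⁻¹ by positivity)
    filter_upwards [h1, eventually_ge_atTop 0] with X hX hX0
    rw [Real.norm_of_nonneg (by positivity), Real.norm_of_nonneg (Real.exp_pos _).le] at hX
    rwa [← div_eq_inv_mul, le_div_iff₀' (by positivity)] at hX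
  refine tendsto_atBot_mono' atTop (f₁ := fun X : ℝ => -X)
    (f₂ := fun X : ℝ => (Gs (cP x) vP X).re + A * Real.log X) ?_ tendsto_neg_atTop_atBot
  filter_upwards [hgrow, eventually_ge_atTop 1] with X hX hX1
  have hX0 : 0 < X := by linarith
  have h1 := hmain X hX1
  have h2 : (|A| + 1) * X ≤ Real.exp ((X - 1) * x) / (2 * X) := by
    rw [le_div_iff₀ (by positivity)]
    have h3 : Real.exp ((X - 1) * x) * Real.exp x = Real.exp (x * X) := by
      rw [← Real.exp_add]
      congr 1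
      ring
    have h4 : 0 < Real.exp x := Real.exp_pos x
    rw [← h3] at hX
    have h5 : (|A| + 1) * X * (2 * X) * Real.exp x ≤ Real.exp ((X - 1) * x) * Real.exp x := by
      calc (|A| + 1) * X * (2 * X) * Real.exp x = (2 * Real.exp x * (|A| + 1)) * X ^ 2 := by ring
        _ ≤ _ := hX
    exact le_of_mul_le_mul_right h5 h4
  have h3 : A * Real.log X ≤ |A| * X := by
    have h4 : Real.log X ≤ X := (Real.log_le_sub_one_of_pos hX0).trans (by linarith)
    have h5 : 0 ≤ Real.log X := Real.log_nonneg hX1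
    calc A * Real.log X ≤ |A| * Real.log X := mul_le_mul_of_nonneg_right (le_abs_self A) h5
      _ ≤ |A| * X := mul_le_mul_of_nonneg_left h4 (abs_nonneg _)
  linarith

end BSDG
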