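import Pool.Agent.W_92892g.Ker

open MeasureTheory Set Filter Topology

namespace BSDG

theorem Shift_norm_ge (b y : ℝ) (hb : 0 < b) :
    b / (1 + b) * (1 + ‖y‖) ≤ ‖tl b y‖ := by
  have h1 : b ≤ ‖tl b y‖ := le_norm_tl b y hb.le
  have h2 : |y| ≤ ‖tl b y‖ := by
    have h3 := Complex.abs_im_le_norm (tl b y)
    rwa [tl_im] at h3
  rw [Real.norm_eq_abs, div_mul_eq_mul_div, div_le_iff₀ (by linarith)]
  nlinarith

theorem Shift_integrable (f : ℂ → ℂ) (b₀ b M : ℝ) (hb₀ : 0 < b₀) (hb : b₀ < b)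
    (hf : DifferentiableOn ℂ f {t : ℂ | b₀ < t.re})
    (hM : ∀ y : ℝ, ‖f (tl b y)‖ ≤ M * ‖tl b y‖ ^ (-(3 / 2 : ℝ))) :
    Integrable (fun y : ℝ => f (tl b y)) := by
  have hbp : 0 < b := hb₀.trans hb
  have hc : 0 < b / (1 + b) := by positivity
  have htl : Continuous (fun y : ℝ => tl b y) := by
    unfold tl
    fun_prop
  have hcont : Continuous (fun y : ℝ => f (tl b y)) := by
    refine hf.continuousOn.comp_continuous htl fun y => ?_
    change b₀ < (tl b y).re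
    rw [tl_re]
    exact hb
  have hint : Integrable (fun y : ℝ => |M| * (b / (1 + b)) ^ (-(3 / 2 : ℝ)) *
      (1 + ‖y‖) ^ (-(3 / 2 : ℝ))) := by
    refine Integrable.const_mul ?_ _
    refine integrable_one_add_norm ?_
    rw [Module.finrank_self]
    norm_num
  refine hint.mono' hcont.aestronglyMeasurable (Filter.Eventually.of_forall fun y => ?_)
  refine (hM y).trans ?_
  have h1 := Shift_norm_ge b y hbp
  have h2 : 0 < 1 + ‖y‖ := by positivity
  have h3 : ‖tl b y‖ ^ (-(3 / 2 : ℝ)) ≤ (b / (1 + b) * (1 + ‖y‖)) ^ (-(3 / 2 : ℝ)) :=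
    Real.rpow_le_rpow_of_nonpos (by positivity) h1 (by norm_num)
  rw [Real.mul_rpow hc.le h2.le] at h3
  have h4 : 0 ≤ ‖tl b y‖ ^ (-(3 / 2 : ℝ)) := by positivity
  calc M * ‖tl b y‖ ^ (-(3 / 2 : ℝ)) ≤ |M| * ‖tl b y‖ ^ (-(3 / 2 : ℝ)) :=
        mul_le_mul_of_nonneg_right (le_abs_self M) h4
    _ ≤ |M| * ((b / (1 + b)) ^ (-(3 / 2 : ℝ)) * (1 + ‖y‖) ^ (-(3 / 2 : ℝ))) :=
        mul_le_mul_of_nonneg_left h3 (abs_nonneg M)
    _ = _ := by ring

/-- The horizontal sides of the rectangles. -/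
theorem Shift_horizontal (f : ℂ → ℂ) (b b' M : ℝ) (hb : 0 < b) (hbb : b ≤ b')
    (hM : ∀ t : ℂ, b ≤ t.re → t.re ≤ b' → ‖f t‖ ≤ M * ‖t‖ ^ (-(3 / 2 : ℝ)))
    (T : ℝ) (hT : T ≠ 0) :
    ‖∫ x : ℝ in b..b', f (x + T * Complex.I)‖ ≤ |M| * |T| ^ (-(3 / 2 : ℝ)) * |b' - b| := by
  refine intervalIntegral.norm_integral_le_of_norm_le_const fun x hx => ?_
  rw [uIoc_of_le hbb] at hx
  have hre : ((x : ℂ) + T * Complex.I).re = x := by simp
  have him : ((x : ℂ) + T * Complex.I).im = T := by simp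
  have h1 := hM (x + T * Complex.I) (by rw [hre]; exact hx.1.le) (by rw [hre]; exact hx.2)
  refine h1.trans ?_
  have h2 : |T| ≤ ‖(x : ℂ) + T * Complex.I‖ := by
    have h3 := Complex.abs_im_le_norm ((x : ℂ) + T * Complex.I)
    rwa [him] at h3
  have h4 : ‖(x : ℂ) + T * Complex.I‖ ^ (-(3 / 2 : ℝ)) ≤ |T| ^ (-(3 / 2 : ℝ)) :=
    Real.rpow_le_rpow_of_nonpos (abs_pos.2 hT) h2 (by norm_num)
  have h5 : 0 ≤ ‖(x : ℂ) + T * Complex.I‖ ^ (-(3 / 2 : ℝ)) := by positivity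
  calc M * ‖(x : ℂ) + T * Complex.I‖ ^ (-(3 / 2 : ℝ))
      ≤ |M| * ‖(x : ℂ) + T * Complex.I‖ ^ (-(3 / 2 : ℝ)) :=
        mul_le_mul_of_nonneg_right (le_abs_self M) h5
    _ ≤ |M| * |T| ^ (-(3 / 2 : ℝ)) := mul_le_mul_of_nonneg_left h4 (abs_nonneg M)

/-- Shift of a vertical line of integration: `f` holomorphic on `Re t > b₀`,
`‖f t‖ ≤ M ‖t‖^(-3/2)` on the strip `b ≤ Re t ≤ b'`: rectangles `[b, b'] × [-T, T]`
(`Complex.integral_boundary_rect_eq_zero_of_differentiableOn`), `T → ∞`. -/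
theorem vertical_shift (f : ℂ → ℂ) (b₀ b b' M : ℝ) (hb₀ : 0 < b₀) (hb : b₀ < b) (hbb : b ≤ b')
    (hf : DifferentiableOn ℂ f {t : ℂ | b₀ < t.re})
    (hM : ∀ t : ℂ, b ≤ t.re → t.re ≤ b' → ‖f t‖ ≤ M * ‖t‖ ^ (-(3 / 2 : ℝ))) :
    ∫ y : ℝ, f (tl b y) = ∫ y : ℝ, f (tl b' y) := by
  have hbp : 0 < b := hb₀.trans hb
  have i1 : Integrable (fun y : ℝ => f (tl b y)) :=
    Shift_integrable f b₀ b M hb₀ hb hf fun y =>
      hM _ (by rw [tl_re]) (by rw [tl_re]; exact hbb)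
  have i2 : Integrable (fun y : ℝ => f (tl b' y)) :=
    Shift_integrable f b₀ b' M hb₀ (hb.trans_le hbb) hf fun y =>
      hM _ (by rw [tl_re]; exact hbb) (by rw [tl_re])
  have t1 : Tendsto (fun T : ℝ => ∫ y in (-T)..T, f (tl b y)) atTop (𝓝 (∫ y : ℝ, f (tl b y))) :=
    intervalIntegral_tendsto_integral i1 tendsto_neg_atTop_atBot tendsto_id
  have t2 : Tendsto (fun T : ℝ => ∫ y in (-T)..T, f (tl b' y)) atTop
      (𝓝 (∫ y : ℝ, f (tl b' y))) :=
    intervalIntegral_tendsto_integral i2 tendsto_neg_atTop_atBot tendsto_id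
  have hrect : ∀ T : ℝ, (∫ y in (-T)..T, f (tl b' y)) - (∫ y in (-T)..T, f (tl b y)) =
      Complex.I * ((∫ x : ℝ in b..b', f (x + ((-T : ℝ) : ℂ) * Complex.I)) -
        (∫ x : ℝ in b..b', f (x + (T : ℂ) * Complex.I))) := by
    intro T
    have h1 := Complex.integral_boundary_rect_eq_zero_of_differentiableOn f
      (tl b (-T)) (tl b' T) (hf.mono (by
        intro t ht
        rw [Complex.mem_reProdIm, tl_re, tl_re] at ht
        have h2 := ht.1
        rw [uIcc_of_le hbb] at h2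
        exact hb.trans_le h2.1))
    rw [tl_re, tl_re, tl_im, tl_im] at h1
    have e1 : (∫ y : ℝ in (-T)..T, f ((b' : ℂ) + y * Complex.I)) =
        ∫ y in (-T)..T, f (tl b' y) := rfl
    have e2 : (∫ y : ℝ in (-T)..T, f ((b : ℂ) + y * Complex.I)) =
        ∫ y in (-T)..T, f (tl b y) := rfl
    rw [e1, e2, smul_eq_mul, smul_eq_mul] at h1
    have hI : Complex.I * Complex.I = -1 := Complex.I_mul_I
    linear_combination (-Complex.I) * h1 +
      (-(∫ y in (-T)..T, f (tl b' y)) + (∫ y in (-T)..T, f (tl b y))) * (-1) * hI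
  have hzero : Tendsto (fun T : ℝ => Complex.I *
      ((∫ x : ℝ in b..b', f (x + ((-T : ℝ) : ℂ) * Complex.I)) -
        (∫ x : ℝ in b..b', f (x + (T : ℂ) * Complex.I)))) atTop (𝓝 0) := by
    have hr : Tendsto (fun T : ℝ => 2 * (|M| * T ^ (-(3 / 2 : ℝ)) * |b' - b|)) atTop (𝓝 0) := by
      have h1 := ((tendsto_rpow_neg_atTop (show (0 : ℝ) < 3 / 2 by norm_num)).const_mul
        |M|).mul_const |b' - b|
      have h2 := h1.const_mul 2
      simpa using h2
    refine squeeze_zero_norm' ?_ hr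
    filter_upwards [eventually_gt_atTop (0 : ℝ)] with T hT
    rw [norm_mul, Complex.norm_I, one_mul]
    refine (norm_sub_le _ _).trans ?_
    have h1 := Shift_horizontal f b b' M hbp hbb hM (-T) (by linarith)
    have h2 := Shift_horizontal f b b' M hbp hbb hM T hT.ne'
    rw [abs_neg, abs_of_pos hT] at h1
    rw [abs_of_pos hT] at h2
    linarith
  have h3 := t2.sub t1
  have h4 : Tendsto (fun T : ℝ => (∫ y in (-T)..T, f (tl b' y)) - (∫ y in (-T)..T, f (tl b y)))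
      atTop (𝓝 0) := by
    refine hzero.congr fun T => ?_
    exact (hrect T).symm
  have h5 := tendsto_nhds_unique h3 h4
  exact (sub_eq_zero.1 h5).symm

theorem Shift_log_ge : Real.pi / 4 < Real.log (5 / 2) := by
  have h1 : Real.log (5 / 2) = Real.log 2 + Real.log (5 / 4) := by
    rw [← Real.log_mul (by norm_num) (by norm_num)]
    norm_num
  have h2 := Real.log_two_gt_d9
  have h3 := Real.one_sub_inv_le_log_of_pos (show (0 : ℝ) < 5 / 4 by norm_num)
  have h4 := Real.pi_lt_d2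
  rw [h1]
  norm_num at h3
  linarith

theorem Shift_mem (t : ℂ) (ht : 5 / 2 < t.re) (X η : ℝ) (hη : 0 < η)
    (hX : Real.pi / (2 * η) < X) : Complex.log t / X ∈ Ss 2 η := by
  have hX0 : 0 < X := lt_trans (by positivity) hX
  have harg : |t.arg| < Real.pi / 2 :=
    Complex.abs_arg_lt_pi_div_two_iff.2 (Or.inl (by linarith))
  have hn : 5 / 2 < ‖t‖ := ht.trans_le (Complex.re_le_norm t)
  have hlog : Real.pi / 4 < Real.log ‖t‖ :=
    Shift_log_ge.trans_le (Real.log_le_log (by norm_num) hn.le)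
  have him : (Complex.log t / X).im = t.arg / X := by
    rw [Complex.div_ofReal_im, Complex.log_im]
  have hre : (Complex.log t / X).re = Real.log ‖t‖ / X := by
    rw [Complex.div_ofReal_re, Complex.log_re]
  refine ⟨?_, ?_⟩
  · rw [him, abs_div, abs_of_pos hX0, div_lt_iff₀ hX0]
    rw [div_lt_iff₀ (by positivity)] at hX
    nlinarith
  · rw [him, hre, abs_div, abs_of_pos hX0, ← mul_div_assoc]
    exact div_lt_div_of_pos_right (by linarith) hX0

theorem Shift_norm_log (t : ℂ) (ht : 1 ≤ ‖t‖) :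
    ‖Complex.log t‖ ≤ 2 * Real.sqrt ‖t‖ + 2 := by
  have h0 : 0 < ‖t‖ := by linarith
  have h1 : Real.log ‖t‖ ≤ 2 * Real.sqrt ‖t‖ - 2 := by
    have h2 := Real.log_le_sub_one_of_pos (Real.sqrt_pos.2 h0)
    rw [Real.log_sqrt h0.le] at h2
    linarith
  have h3 : 0 ≤ Real.log ‖t‖ := Real.log_nonneg ht
  have h4 := Complex.norm_le_abs_re_add_abs_im (Complex.log t)
  rw [Complex.log_re, Complex.log_im, abs_of_nonneg h3] at h4
  have h5 := Complex.abs_arg_le_pi t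
  have h6 := Real.pi_lt_d2
  linarith

/-- `f t = ker t * G (log t / X)`; `‖log t‖ ≤ 2 √‖t‖ + 2`.  The function is holomorphic on
`Re t > 5/2`, because there `|arg t| / log ‖t‖ ≤ (π/2)/log (5/2) < 2`, so
`log t / X ∈ Ss 2 η`. -/
theorem LT_shift (η : ℝ) (hη : 0 < η) (G : ℂ → ℂ) (hG : DifferentiableOn ℂ G (Ss 2 η)) (C : ℝ)
    (hC : ∀ s ∈ Ss 2 η, ‖G s‖ ≤ C * (1 + ‖s‖ + ‖s‖⁻¹)) (b b' X : ℝ) (hb : 3 ≤ b)
    (hbb : b ≤ b') (hX : Real.pi / (2 * η) < X) : LT G b X = LT G b' X := by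
  have hX0 : 0 < X := lt_trans (by positivity) hX
  unfold LT
  congr 1
  have hdiff : DifferentiableOn ℂ (fun t : ℂ => ker t * G (Complex.log t / X))
      {t : ℂ | (5 / 2 : ℝ) < t.re} := by
    have hne : ∀ t ∈ {t : ℂ | (5 / 2 : ℝ) < t.re}, t ≠ 0 := by
      rintro t ht rfl
      have h1 : (5 / 2 : ℝ) < (0 : ℂ).re := ht
      rw [Complex.zero_re] at h1
      linarith
    refine DifferentiableOn.mul ?_ ?_
    · unfold ker
      refine DifferentiableOn.div Complex.differentiable_exp.differentiableOn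
        (differentiable_id.pow 2).differentiableOn fun t ht => ?_
      exact pow_ne_zero 2 (hne t ht)
    · have h1 : DifferentiableOn ℂ (fun t : ℂ => Complex.log t / X)
          {t : ℂ | (5 / 2 : ℝ) < t.re} := by
        refine DifferentiableOn.div_const ?_ _
        refine DifferentiableOn.clog differentiableOn_id fun t ht => Or.inl ?_
        have h2 : (5 / 2 : ℝ) < t.re := ht
        change 0 < t.re
        linarith
      exact hG.comp h1 fun t ht => Shift_mem t ht X η hη hX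
  refine vertical_shift (fun t : ℂ => ker t * G (Complex.log t / X)) (5 / 2) b b'
    (Real.exp b' * (|C| * (1 + 4 / X + X))) (by norm_num) (by linarith) hbb hdiff ?_
  intro t h1 h2
  have hre3 : 3 ≤ t.re := hb.trans h1
  have hn3 : 3 ≤ ‖t‖ := hre3.trans (Complex.re_le_norm t)
  have hn0 : 0 < ‖t‖ := by linarith
  have hs1 : 1 ≤ Real.sqrt ‖t‖ := by
    rw [Real.one_le_sqrt]
    linarith
  have hker : ‖ker t‖ ≤ Real.exp b' / ‖t‖ ^ 2 := by
    unfold ker
    rw [norm_div, norm_pow, Complex.norm_exp]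
    exact div_le_div_of_nonneg_right (Real.exp_le_exp.2 h2) (by positivity)
  have hlogn : 1 ≤ ‖Complex.log t‖ := by
    have h3 : Real.log ‖t‖ ≤ ‖Complex.log t‖ := by
      have h4 := Complex.re_le_norm (Complex.log t)
      rwa [Complex.log_re] at h4
    refine le_trans ?_ h3
    rw [Real.le_log_iff_exp_le hn0]
    have := Real.exp_one_lt_d9
    linarith
  have hs : ‖Complex.log t / X‖ = ‖Complex.log t‖ / X := by
    rw [norm_div, Complex.norm_real, Real.norm_of_nonneg hX0.le]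
  have hG1 := hC _ (Shift_mem t (by linarith) X η hη hX)
  rw [hs] at hG1
  have hlog2 := Shift_norm_log t (by linarith)
  have hsum : 1 + ‖Complex.log t‖ / X + (‖Complex.log t‖ / X)⁻¹ ≤
      (1 + 4 / X + X) * Real.sqrt ‖t‖ := by
    have h5 : ‖Complex.log t‖ / X ≤ 4 / X * Real.sqrt ‖t‖ := by
      rw [div_mul_eq_mul_div]
      exact div_le_div_of_nonneg_right (by linarith) hX0.le
    have h6 : (‖Complex.log t‖ / X)⁻¹ ≤ X := by
      rw [inv_div, div_le_iff₀ (by linarith)]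
      nlinarith
    have h7 : X ≤ X * Real.sqrt ‖t‖ := by nlinarith
    nlinarith
  have hG2 : ‖G (Complex.log t / X)‖ ≤ |C| * ((1 + 4 / X + X) * Real.sqrt ‖t‖) := by
    refine hG1.trans ?_
    have h8 : 0 ≤ 1 + ‖Complex.log t‖ / X + (‖Complex.log t‖ / X)⁻¹ := by positivity
    exact (mul_le_mul_of_nonneg_right (le_abs_self C) h8).trans
      (mul_le_mul_of_nonneg_left hsum (abs_nonneg C))
  have hpow : Real.sqrt ‖t‖ / ‖t‖ ^ 2 = ‖t‖ ^ (-(3 / 2 : ℝ)) := by
    rw [Real.sqrt_eq_rpow, ← Real.rpow_natCast, ← Real.rpow_sub hn0]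
    norm_num
  rw [norm_mul]
  calc ‖ker t‖ * ‖G (Complex.log t / X)‖
      ≤ Real.exp b' / ‖t‖ ^ 2 * (|C| * ((1 + 4 / X + X) * Real.sqrt ‖t‖)) :=
        mul_le_mul hker hG2 (norm_nonneg _) (by positivity)
    _ = Real.exp b' * (|C| * (1 + 4 / X + X)) * (Real.sqrt ‖t‖ / ‖t‖ ^ 2) := by ring
    _ = _ := by rw [hpow]

end BSDG
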