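import Pool.Agent.W_92892g.Series
import Pool.Agent.W_92892g.Shift
import Pool.Agent.W_92892g.Asym
import Pool.Agent.W_92892g.HolLog
import Pool.Agent.W_92892g.LinBound
import Pool.Agent.W_92892g.Factor
import Pool.Agent.W_92892g.PFac

open MeasureTheory Set Filter Topology

namespace BSDG

variable {ι : Type} {c v : ι → ℂ} {K a : ℝ}

theorem Abs_LT_add (g h : ℂ → ℂ) (b X : ℝ)
    (hg : Integrable (fun y : ℝ => ker (tl b y) * g (Complex.log (tl b y) / X)))
    (hh : Integrable (fun y : ℝ => ker (tl b y) * h (Complex.log (tl b y) / X))) :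
    LT (fun s => g s + h s) b X = LT g b X + LT h b X := by
  unfold LT
  rw [← mul_add, ← integral_add hg hh]
  congr 1
  refine integral_congr_ae (Filter.Eventually.of_forall fun y => ?_)
  simp only [mul_add]

theorem Abs_int_list (xs : List ℝ) (f : ℝ → ℂ → ℂ) (b X : ℝ)
    (h : ∀ x ∈ xs, Integrable (fun y : ℝ => ker (tl b y) * f x (Complex.log (tl b y) / X))) :
    Integrable (fun y : ℝ => ker (tl b y) *
      (xs.map (fun x => f x (Complex.log (tl b y) / X))).sum) := by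
  induction xs with
  | nil => simp
  | cons x xs ih =>
    have h1 := h x (by simp)
    have h2 := ih (fun z hz => h z (by simp [hz]))
    have : (fun y : ℝ => ker (tl b y) *
        ((x :: xs).map (fun x => f x (Complex.log (tl b y) / X))).sum) =
        fun y : ℝ => ker (tl b y) * f x (Complex.log (tl b y) / X) + ker (tl b y) *
          (xs.map (fun x => f x (Complex.log (tl b y) / X))).sum := by
      funext y
      simp [mul_add]
    rw [this]
    exact h1.add h2

theorem Abs_LT_list (xs : List ℝ) (f : ℝ → ℂ → ℂ) (b X : ℝ)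
    (h : ∀ x ∈ xs, Integrable (fun y : ℝ => ker (tl b y) * f x (Complex.log (tl b y) / X))) :
    LT (fun s => (xs.map (fun x => f x s)).sum) b X = (xs.map (fun x => LT (f x) b X)).sum := by
  induction xs with
  | nil => simp [LT]
  | cons x xs ih =>
    have h1 := h x (by simp)
    have h2 := Abs_int_list xs f b X (fun z hz => h z (by simp [hz]))
    have h3 := ih (fun z hz => h z (by simp [hz]))
    simp only [List.map_cons, List.sum_cons]
    rw [Abs_LT_add _ _ b X h1 h2, h3]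

theorem Abs_logtl_line_cont (b X : ℝ) (hb : 0 < b) :
    Continuous (fun y : ℝ => Complex.log (tl b y) / (X : ℂ)) :=
  (logtl_cont b hb).div_const _

/-- points of the line are far to the right -/
theorem Abs_logtl_re_ge (b y X B : ℝ) (hb : 1 ≤ b) (hX : 0 < X) (h : B * X ≤ Real.log b) :
    B ≤ (Complex.log (tl b y) / (X : ℂ)).re := by
  rw [logtl_re, le_div_iff₀ hX]
  refine h.trans (Real.log_le_log (by linarith) (le_norm_tl b y (by linarith)))

theorem Abs_logtl_region (b y X K a : ℝ) (hb : 1 ≤ b) (hX : 0 < X) (hK : 0 ≤ K)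
    (h : a * X + K * (Real.pi / 2) ≤ Real.log b) :
    a + K * |(Complex.log (tl b y) / (X : ℂ)).im| ≤ (Complex.log (tl b y) / (X : ℂ)).re := by
  have h1 : |(Complex.log (tl b y) / (X : ℂ)).im| ≤ (Real.pi / 2) / X := by
    rw [logtl_im, abs_div, abs_of_pos hX]
    exact div_le_div_of_nonneg_right (abs_arg_tl b y (by linarith)).le hX.le
  have h2 : Real.log b / X ≤ (Complex.log (tl b y) / (X : ℂ)).re := by
    rw [logtl_re]
    exact div_le_div_of_nonneg_right
      (Real.log_le_log (by linarith) (le_norm_tl b y (by linarith))) hX.le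
  have h3 : a + K * ((Real.pi / 2) / X) ≤ Real.log b / X := by
    rw [le_div_iff₀ hX]
    calc (a + K * ((Real.pi / 2) / X)) * X = a * X + K * (Real.pi / 2) := by
          field_simp
      _ ≤ _ := h
  have h4 := mul_le_mul_of_nonneg_left h1 hK
  linarith

theorem Abs_Es_int (H : GHyp c v K a) (b X : ℝ) (hb : 1 ≤ b) (hX : 0 < X)
    (h : a * X + K * (Real.pi / 2) ≤ Real.log b) :
    Integrable (fun y : ℝ => ker (tl b y) * Es c v (Complex.log (tl b y) / X)) := by
  have hr : ∀ y, a + K * |(Complex.log (tl b y) / (X : ℂ)).im| ≤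
      (Complex.log (tl b y) / (X : ℂ)).re := fun y => Abs_logtl_region b y X K a hb hX H.K0 h
  refine ker_mul_integrable b hb _ ?_ (Mg c v a) fun y => ?_
  · exact (Es_continuousOn H).comp_continuous (Abs_logtl_line_cont b X (by linarith)) hr
  · have h1 := Es_bound H _ (hr y)
    have h2 := Mg_nonneg H
    have h3 : 0 ≤ ‖Complex.log (tl b y)‖ := norm_nonneg _
    nlinarith

theorem Abs_prod_exp (xs : List ℝ) (s : ℂ) (h : ∀ x ∈ xs, 0 < x ∧ x + 1 ≤ s.re) :
    (xs.map (fun x : ℝ => 1 - Complex.exp ((x : ℂ) - s))).prod =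
      Complex.exp (xs.map (fun x => Es (cP x) vP s)).sum := by
  induction xs with
  | nil => simp
  | cons x xs ih =>
    have h1 := h x (by simp)
    simp only [List.map_cons, List.prod_cons, List.sum_cons, Complex.exp_add]
    rw [ih (fun z hz => h z (by simp [hz])), exp_Es_P x h1.1 s h1.2]

theorem Abs_sum_bound (xs : List ℝ) (s : ℂ) (h : ∀ x ∈ xs, 0 < x ∧ x + 1 ≤ s.re) :
    ‖(xs.map (fun x => Es (cP x) vP s)).sum‖ ≤ (xs.map (fun x => Mg (cP x) vP (x + 1))).sum := by
  induction xs with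
  | nil => simp
  | cons x xs ih =>
    have h1 := h x (by simp)
    simp only [List.map_cons, List.sum_cons]
    refine (norm_add_le _ _).trans (add_le_add ?_ (ih (fun z hz => h z (by simp [hz]))))
    exact Es_bound (GHyp_P x h1.1) s (by simpa using h1.2)

theorem Abs_sum_cont (xs : List ℝ) (S : Set ℂ) (h : ∀ x ∈ xs, 0 < x ∧ ∀ s ∈ S, x + 1 ≤ s.re) :
    ContinuousOn (fun s => (xs.map (fun x => Es (cP x) vP s)).sum) S := by
  induction xs with
  | nil => simpa using continuousOn_const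
  | cons x xs ih =>
    have h1 := h x (by simp)
    simp only [List.map_cons, List.sum_cons]
    refine ContinuousOn.add ?_ (ih (fun z hz => h z (by simp [hz])))
    exact (Es_continuousOn (GHyp_P x h1.1)).mono fun s hs => by simpa using h1.2 s hs

theorem Abs_prod_ne (xs : List ℝ) (h : ∀ x ∈ xs, 0 < x) :
    (xs.map (fun x : ℝ => 1 - Complex.exp ((x : ℂ) - 0))).prod ≠ 0 := by
  intro h0
  rw [List.prod_eq_zero_iff, List.mem_map] at h0
  obtain ⟨x, hx, hx0⟩ := h0
  have h1 : Complex.exp (x : ℂ) = 1 := by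
    have := sub_eq_zero.1 hx0
    simpa using this.symm
  have h2 : Real.exp x = 1 := by
    have := congrArg Complex.re h1
    rwa [Complex.exp_ofReal_re, Complex.one_re] at this
  have h3 := h x hx
  rw [Real.exp_eq_one_iff] at h2
  linarith

theorem Abs_prod_cont (xs : List ℝ) :
    Continuous (fun s : ℂ => (xs.map (fun x : ℝ => 1 - Complex.exp ((x : ℂ) - s))).prod) := by
  induction xs with
  | nil => simpa using continuous_const
  | cons x xs ih =>
    simp only [List.map_cons, List.prod_cons]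
    refine Continuous.mul ?_ ih
    fun_prop

theorem Abs_prod_zero (xs : List ℝ) (x : ℝ) (hx : x ∈ xs) :
    (xs.map (fun x' : ℝ => 1 - Complex.exp ((x' : ℂ) - (x : ℂ)))).prod = 0 := by
  rw [List.prod_eq_zero_iff, List.mem_map]
  exact ⟨x, hx, by simp⟩

/-- The explicit formula: `Gs c v X = l - q log X + q κ + Σ_{x ∈ xs} Gs (cP x) vP X + o(1)`. -/
theorem Gs_formula (H : GHyp c v K a) (F : ℂ → ℂ) (hF : DifferentiableOn ℂ F {0}ᶜ)
    (hE : ∀ s : ℂ, a + K * |s.im| ≤ s.re → F s = Complex.exp (Es c v s)) (q : ℤ) (ℓ : ℂ)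
    (hℓ : ℓ ≠ 0) (h0 : Tendsto (fun s : ℂ => F s / s ^ q) (𝓝[≠] 0) (𝓝 ℓ)) :
    ∃ (xs : List ℝ) (m : ℝ → ℂ) (l κ : ℂ), (∀ x ∈ xs, 0 < x) ∧
      ((∀ x : ℝ, 0 < x → F x ≠ 0) ↔ xs = []) ∧ (xs = [] → Complex.exp l = ℓ) ∧
      Tendsto m atTop (𝓝 l) ∧
      ∀ᶠ X : ℝ in atTop,
        Gs c v X = m X + q * (κ - Real.log X) + (xs.map (fun x => Gs (cP x) vP X)).sum := by
  have hK := H.K0
  have ha := H.apos
  -- near 0 no zeros
  obtain ⟨ρ, hρ, near⟩ : ∃ ρ : ℝ, 0 < ρ ∧ ∀ s : ℂ, s ≠ 0 → ‖s‖ < ρ → F s ≠ 0 := by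
    have h1 := h0.eventually_ne hℓ
    rw [eventually_nhdsWithin_iff, Metric.eventually_nhds_iff] at h1
    obtain ⟨ρ, hρ, h2⟩ := h1
    refine ⟨ρ, hρ, fun s hs hsρ hs0 => ?_⟩
    exact h2 (by simpa using hsρ) hs (by rw [hs0, zero_div])
  have far : ∀ s : ℂ, |s.im| ≤ 1 → a + K ≤ s.re → F s ≠ 0 := by
    intro s h1 h2
    rw [hE s (by nlinarith)]
    exact Complex.exp_ne_zero _
  obtain ⟨η, xs, F1, hη0, hη1, hxs, hF1d, hF1ne, hfac⟩ := factor F hF (a + K) ρ hρ far near
  obtain ⟨κ, hκ⟩ := LT_log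
  -- the bound B
  obtain ⟨B, hB1, hBa, hBx⟩ : ∃ B : ℝ, 1 ≤ B ∧ a + K ≤ B ∧ ∀ x ∈ xs, x + 1 ≤ B := by
    obtain ⟨B0, hB0⟩ := (List.finite_toSet xs).bddAbove
    refine ⟨max (max 1 (a + K)) (B0 + 1), le_max_of_le_left (le_max_left _ _),
      le_max_of_le_left (le_max_right _ _), fun x hx => le_max_of_le_right ?_⟩
    have := hB0 hx
    linarith
  set U : Set ℂ := Ss 3 η with hU
  have hUo : IsOpen U := Ss_open 3 η
  have hUc : Convex ℝ U := Ss_convex 3 η
  have hUre : ∀ s ∈ U, 0 < s.re := fun s hs => Ss_re_pos (by norm_num) hs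
  have hUne : ∀ s ∈ U, s ≠ 0 := by
    intro s hs h
    have := hUre s hs
    rw [h] at this
    simp at this
  have hUim : ∀ s ∈ U, |s.im| < 1 := fun s hs => lt_trans hs.1 hη1
  have hF1U : DifferentiableOn ℂ F1 U := hF1d.mono fun s hs => ⟨hUne s hs, hUim s hs⟩
  have hF1U0 : ∀ s ∈ U, F1 s ≠ 0 := fun s hs => hF1ne s (hUne s hs) (hUre s hs).le hs.1.le
  -- the far logarithm
  set Et : ℂ → ℂ := fun s => Es c v s - (xs.map (fun x => Es (cP x) vP s)).sum with hEt
  have hEtexp : ∀ s ∈ U, B ≤ s.re → Complex.exp (Et s) = F1 s := by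
    intro s hs hsB
    have h1 : F s = Complex.exp (Es c v s) := hE s (by
      have := hUim s hs
      nlinarith)
    have h2 := hfac s (hUne s hs) (hUim s hs)
    rw [Abs_prod_exp xs s (fun x hx => ⟨hxs x hx, (hBx x hx).trans hsB⟩)] at h2
    rw [hEt]
    simp only
    rw [Complex.exp_sub, ← h1, h2, mul_div_assoc, div_self (Complex.exp_ne_zero _), mul_one]
  have hs0U : ((B : ℝ) : ℂ) ∈ U := by
    refine ⟨by simpa using hη0, ?_⟩
    simp only [Complex.ofReal_im, abs_zero, Complex.ofReal_re]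
    linarith
  obtain ⟨G1, hG1d, hG1exp, hG1s0⟩ := exists_log U hUo hUc F1 hF1U hF1U0 (B : ℂ) (Et B) hs0U
    (hEtexp _ hs0U (by simp))
  have hG1far : ∀ s ∈ U ∩ {s : ℂ | B ≤ s.re}, G1 s = Et s := by
    have hconv : Convex ℝ (U ∩ {s : ℂ | B ≤ s.re}) :=
      hUc.inter (convex_halfSpace_re_ge B)
    refine log_unique _ hconv.isPreconnected G1 Et (hG1d.continuousOn.mono inter_subset_left) ?_
      ?_ (B : ℂ) ⟨hs0U, by simp⟩ hG1s0
    · refine ContinuousOn.sub ((Es_continuousOn H).mono fun s hs => ?_)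
        (Abs_sum_cont xs _ fun x hx => ⟨hxs x hx, fun s hs => (hBx x hx).trans hs.2⟩)
      have h1 := hUim s hs.1
      have h2 : B ≤ s.re := hs.2
      show a + K * |s.im| ≤ s.re
      nlinarith
    · intro s hs
      rw [hG1exp s hs.1, hEtexp s hs.1 hs.2]
  -- g
  set g : ℂ → ℂ := fun s => G1 s - q * Complex.log s with hg
  have hUslit : ∀ s ∈ U, s ∈ Complex.slitPlane := fun s hs => Or.inl (hUre s hs)
  have hgc : ContinuousOn g U := by
    refine hG1d.continuousOn.sub (continuousOn_const.mul ?_)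
    exact fun s hs => (continuousAt_clog (hUslit s hs)).continuousWithinAt
  have hgexp : ∀ s ∈ U, Complex.exp (g s) = F1 s / s ^ q := by
    intro s hs
    rw [hg]
    simp only
    rw [Complex.exp_sub, hG1exp s hs, Complex.exp_int_mul, Complex.exp_log (hUne s hs)]
  set P0 : ℂ := (xs.map (fun x : ℝ => 1 - Complex.exp ((x : ℂ) - 0))).prod with hP0
  have hP0ne : P0 ≠ 0 := Abs_prod_ne xs hxs
  have hUle : 𝓝[U] (0 : ℂ) ≤ 𝓝[≠] 0 := nhdsWithin_mono _ fun s hs => hUne s hs
  have hgl : Tendsto (fun s => Complex.exp (g s)) (𝓝[U] 0) (𝓝 (ℓ / P0)) := by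
    have h1 : Tendsto (fun s : ℂ => F s / s ^ q) (𝓝[U] 0) (𝓝 ℓ) := h0.mono_left hUle
    have h2 : Tendsto (fun s : ℂ => (xs.map (fun x : ℝ => 1 - Complex.exp ((x : ℂ) - s))).prod)
        (𝓝[U] 0) (𝓝 P0) := ((Abs_prod_cont xs).tendsto 0).mono_left nhdsWithin_le_nhds
    refine (h1.div h2 hP0ne).congr' ?_
    have h3 : ∀ᶠ s in 𝓝[U] (0 : ℂ),
        (xs.map (fun x : ℝ => 1 - Complex.exp ((x : ℂ) - s))).prod ≠ 0 := h2.eventually_ne hP0ne
    filter_upwards [self_mem_nhdsWithin, h3] with s hs hs3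
    rw [hgexp s hs, Pi.div_apply]
    rw [hfac s (hUne s hs) (hUim s hs)]
    field_simp
  obtain ⟨l, hl, hgl'⟩ := log_limit U hUc g hgc (ℓ / P0) (div_ne_zero hℓ hP0ne) hgl
  -- far bound
  set M0 : ℝ := Mg c v a + (xs.map (fun x => Mg (cP x) vP (x + 1))).sum with hM0
  have hM0' : ∀ s ∈ U, B ≤ s.re → ‖Et s‖ ≤ M0 := by
    intro s hs hsB
    refine (norm_sub_le _ _).trans (add_le_add (Es_bound H s ?_) (Abs_sum_bound xs s
      (fun x hx => ⟨hxs x hx, (hBx x hx).trans hsB⟩)))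
    have := hUim s hs
    nlinarith
  have hfar : ∀ s ∈ U, B ≤ s.re → ‖g s‖ ≤ (M0 + 8 * |(q : ℝ)|) * (1 + ‖s‖) := by
    intro s hs hsB
    have h1 : ‖G1 s‖ ≤ M0 := by
      rw [hG1far s ⟨hs, hsB⟩]
      exact hM0' s hs hsB
    have h2 : ‖Complex.log s‖ ≤ 4 * (1 + ‖s‖ + ‖s‖⁻¹) := norm_log_le s (hUne s hs)
    have h3 : 1 ≤ ‖s‖ := (hB1.trans hsB).trans (Complex.re_le_norm s)
    have h4 : ‖s‖⁻¹ ≤ 1 := inv_le_one_of_one_le₀ h3
    have h5 : ‖(q : ℂ)‖ = |(q : ℝ)| := by
      rw [← Complex.ofReal_intCast, Complex.norm_real, Real.norm_eq_abs]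
    have h6 : ‖(q : ℂ) * Complex.log s‖ ≤ |(q : ℝ)| * (8 * (1 + ‖s‖)) := by
      rw [norm_mul, h5]
      exact mul_le_mul_of_nonneg_left (by linarith) (abs_nonneg _)
    have h7 : 0 ≤ M0 := (norm_nonneg _).trans h1
    calc ‖g s‖ ≤ ‖G1 s‖ + ‖(q : ℂ) * Complex.log s‖ := norm_sub_le _ _
      _ ≤ M0 + |(q : ℝ)| * (8 * (1 + ‖s‖)) := add_le_add h1 h6
      _ ≤ (M0 + 8 * |(q : ℝ)|) * (1 + ‖s‖) := by nlinarith
  obtain ⟨C0, hC0⟩ := lin_bound η hη0 g hgc l hgl' B _ hfar
  set C : ℝ := max C0 0 with hC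
  have hC' : ∀ s ∈ Ss 2 (η / 2), ‖g s‖ ≤ C * (1 + ‖s‖) := fun s hs =>
    (hC0 s hs).trans (mul_le_mul_of_nonneg_right (le_max_left _ _) (by positivity))
  have hCpos : 0 ≤ C := le_max_right _ _
  have hsub : Ss 2 (η / 2) ⊆ U := Ss_mono (by norm_num) (by norm_num) (by linarith)
  have hη2 : 0 < η / 2 := by linarith
  -- limit of m
  have hlim : Tendsto (fun X : ℝ => LT g 3 X) atTop (𝓝 l) := by
    refine LT_tendsto (η / 2) hη2 g (hgc.mono hsub) C hC' l ?_
    exact hgl'.mono_left (nhdsWithin_mono _ hsub)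
  refine ⟨xs, fun X => LT g 3 X, l, κ, hxs, ⟨fun h => ?_, fun h => ?_⟩, fun h => ?_, hlim, ?_⟩
  · by_contra hne
    obtain ⟨x, hx⟩ := List.exists_mem_of_ne_nil xs hne
    have hx0 := hxs x hx
    refine h x hx0 ?_
    rw [hfac x (by exact_mod_cast hx0.ne') (by simp), Abs_prod_zero xs x hx, mul_zero]
  · intro x hx
    rw [hfac x (by exact_mod_cast hx.ne') (by simp), h]
    simpa using hF1ne x (by exact_mod_cast hx.ne') (by simpa using hx.le) (by simpa using hη0.le)
  · rw [hl, hP0, h]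
    simp
  -- the formula
  filter_upwards [eventually_gt_atTop (Real.pi / (2 * (η / 2))), eventually_ge_atTop (1 : ℝ)]
    with X hX hX1
  have hX0 : 0 < X := by linarith
  -- bounds of the form of LT_shift
  have hgb : ∀ s ∈ Ss 2 (η / 2), ‖g s‖ ≤ C * (1 + ‖s‖ + ‖s‖⁻¹) := fun s hs =>
    (hC' s hs).trans (mul_le_mul_of_nonneg_left (by
      have : 0 ≤ ‖s‖⁻¹ := by positivity
      linarith) hCpos)
  have hlogb : ∀ s ∈ Ss 2 (η / 2), ‖Complex.log s‖ ≤ 4 * (1 + ‖s‖ + ‖s‖⁻¹) := fun s hs =>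
    norm_log_le s (hUne s (hsub hs))
  have hlogc : ContinuousOn Complex.log (Ss 2 (η / 2)) := fun s hs =>
    (continuousAt_clog (hUslit s (hsub hs))).continuousWithinAt
  have hG1eq : G1 = fun s => g s + (q : ℂ) * Complex.log s := by
    funext s
    rw [hg]
    ring
  have h3 : LT G1 3 X = LT g 3 X + q * (κ - Real.log X) := by
    rw [← hκ X hX0]
    conv_lhs => rw [hG1eq]
    exact LT_add (η / 2) hη2 g Complex.log (hgc.mono hsub) hlogc C 4 hgb hlogb q 3 X le_rfl hX
  have hG1b : ∀ s ∈ Ss 2 (η / 2), ‖G1 s‖ ≤ (C + |(q : ℝ)| * 4) * (1 + ‖s‖ + ‖s‖⁻¹) := by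
    intro s hs
    have h5 : ‖(q : ℂ)‖ = |(q : ℝ)| := by
      rw [← Complex.ofReal_intCast, Complex.norm_real, Real.norm_eq_abs]
    calc ‖G1 s‖ = ‖g s + (q : ℂ) * Complex.log s‖ := by rw [hG1eq]
      _ ≤ ‖g s‖ + ‖(q : ℂ) * Complex.log s‖ := norm_add_le _ _
      _ ≤ C * (1 + ‖s‖ + ‖s‖⁻¹) + |(q : ℝ)| * (4 * (1 + ‖s‖ + ‖s‖⁻¹)) := by
          refine add_le_add (hgb s hs) ?_
          rw [norm_mul, h5]
          exact mul_le_mul_of_nonneg_left (hlogb s hs) (abs_nonneg _)
      _ = _ := by ring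
  -- choice of b
  set b : ℝ := Real.exp (B * X + K * (Real.pi / 2) + 2) with hb
  have hKpi : 0 ≤ K * (Real.pi / 2) := mul_nonneg hK (by positivity)
  have hBX : 0 ≤ B * X := by positivity
  have hb3 : 3 ≤ b := by
    have := Real.add_one_le_exp (B * X + K * (Real.pi / 2) + 2)
    rw [← hb] at this
    linarith
  have hlogbb : Real.log b = B * X + K * (Real.pi / 2) + 2 := by rw [hb, Real.log_exp]
  have hb1 : 1 ≤ b := by linarith
  have h4 : LT G1 3 X = LT G1 b X :=
    LT_shift (η / 2) hη2 G1 (hG1d.mono hsub) _ hG1b 3 b X le_rfl hb3 hX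
  have haX : a * X + K * (Real.pi / 2) ≤ Real.log b := by
    rw [hlogbb]
    nlinarith
  have h5 : Gs c v X = LT (Es c v) b X := Gs_eq H b X hb1 hX0 haX
  have hxX : ∀ x ∈ xs, (x + 1) * X + 0 * (Real.pi / 2) ≤ Real.log b := by
    intro x hx
    have := hBx x hx
    rw [hlogbb]
    nlinarith
  have h6 : ∀ x ∈ xs, Gs (cP x) vP X = LT (Es (cP x) vP) b X := fun x hx =>
    Gs_eq (GHyp_P x (hxs x hx)) b X hb1 hX0 (hxX x hx)
  have hint : ∀ x ∈ xs, Integrable (fun y : ℝ => ker (tl b y) *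
      Es (cP x) vP (Complex.log (tl b y) / X)) := fun x hx =>
    Abs_Es_int (GHyp_P x (hxs x hx)) b X hb1 hX0 (hxX x hx)
  have hline : ∀ y : ℝ, G1 (Complex.log (tl b y) / X) = Et (Complex.log (tl b y) / X) := by
    intro y
    refine hG1far _ ⟨hsub (logtl_mem b y X (η / 2) hb3 hη2 hX), ?_⟩
    exact Abs_logtl_re_ge b y X B hb1 hX0 (by rw [hlogbb]; linarith)
  have hEs : LT (Es c v) b X =
      LT (fun s => G1 s + (xs.map (fun x => Es (cP x) vP s)).sum) b X := by
    unfold LT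
    congr 1
    refine integral_congr_ae (Filter.Eventually.of_forall fun y => ?_)
    simp only
    rw [hline y, hEt]
    simp
  have hintE : Integrable (fun y : ℝ => ker (tl b y) * Es c v (Complex.log (tl b y) / X)) :=
    Abs_Es_int H b X hb1 hX0 haX
  have hintS := Abs_int_list xs (fun x => Es (cP x) vP) b X hint
  have hintG : Integrable (fun y : ℝ => ker (tl b y) * G1 (Complex.log (tl b y) / X)) := by
    refine (hintE.sub hintS).congr (Filter.Eventually.of_forall fun y => ?_)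
    simp only [Pi.sub_apply]
    rw [hline y, hEt]
    simp only
    ring
  rw [h5, hEs, Abs_LT_add _ _ b X hintG hintS, Abs_LT_list xs (fun x => Es (cP x) vP) b X hint,
    ← h4, h3]
  congr 2
  exact List.map_congr_left fun x hx => (h6 x hx).symm

theorem Abs_sum_atBot (x : ℝ) (hx : 0 < x) (xs : List ℝ) (h : ∀ z ∈ xs, 0 < z) (A : ℝ) :
    Tendsto (fun X : ℝ => (Gs (cP x) vP X).re + (xs.map (fun z => (Gs (cP z) vP X).re)).sum +
      A * Real.log X) atTop atBot := by
  induction xs with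
  | nil => simpa using Gs_P_atBot x hx A
  | cons z xs ih =>
    have h1 := ih (fun w hw => h w (by simp [hw]))
    have h2 := Gs_P_atBot z (h z (by simp)) 0
    refine (h1.atBot_add_atBot h2).congr fun X => ?_
    simp only [List.map_cons, List.sum_cons]
    ring

theorem Abs_re_sum (xs : List ℝ) (X : ℝ) :
    ((xs.map (fun x => Gs (cP x) vP X)).sum).re = (xs.map (fun z => (Gs (cP z) vP X).re)).sum := by
  induction xs with
  | nil => simp
  | cons z xs ih => simp [ih]

theorem abstract_thm (H : GHyp c v K a) (F : ℂ → ℂ) (hF : DifferentiableOn ℂ F {0}ᶜ)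
    (hE : ∀ s : ℂ, a + K * |s.im| ≤ s.re → F s = Complex.exp (Es c v s)) (q : ℤ) (ℓ : ℂ)
    (hℓ : ℓ ≠ 0) (h0 : Tendsto (fun s : ℂ => F s / s ^ q) (𝓝[≠] 0) (𝓝 ℓ)) (lam : ℂ)
    (hlam : lam ≠ 0) :
    Tendsto (fun X : ℝ => Complex.exp (Gs c v X)) atTop (𝓝 lam) ↔
      (q = 0 ∧ ℓ = lam) ∧ ∀ x : ℝ, 0 < x → F x ≠ 0 := by
  obtain ⟨xs, m, l, κ, hxs, hiff, hexp, hm, hform⟩ := Gs_formula H F hF hE q ℓ hℓ h0
  have hmre : Tendsto (fun X => (m X).re) atTop (𝓝 l.re) :=
    (Complex.continuous_re.tendsto l).comp hm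
  -- real part
  have hre : ∀ᶠ X : ℝ in atTop, (Gs c v X).re =
      (m X).re + q * κ.re + ((xs.map (fun z => (Gs (cP z) vP X).re)).sum +
        (-(q : ℝ)) * Real.log X) := by
    filter_upwards [hform] with X hX
    have h1 : ((q : ℂ) * (κ - Real.log X)).re = q * κ.re - q * Real.log X := by
      rw [← Complex.ofReal_intCast, Complex.re_ofReal_mul, Complex.sub_re, Complex.ofReal_re]
      ring
    rw [hX, Complex.add_re, Complex.add_re, Abs_re_sum, h1]
    ring
  have hzero : Tendsto (fun X : ℝ => (Gs c v X).re) atTop atBot →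
      ¬ Tendsto (fun X : ℝ => Complex.exp (Gs c v X)) atTop (𝓝 lam) := by
    intro h1 h2
    have h3 := h2.norm
    simp only [Complex.norm_exp] at h3
    have h4 : Tendsto (fun X : ℝ => Real.exp (Gs c v X).re) atTop (𝓝 0) :=
      Real.tendsto_exp_atBot.comp h1
    exact hlam (norm_eq_zero.1 (tendsto_nhds_unique h3 h4))
  by_cases hnil : xs = []
  · have hF0 := hiff.2 hnil
    have hl := hexp hnil
    have hre' : ∀ᶠ X : ℝ in atTop, (Gs c v X).re =
        (m X).re + q * κ.re + (-(q : ℝ)) * Real.log X := by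
      filter_upwards [hre] with X hX
      rw [hX, hnil]
      simp
    have hbd : Tendsto (fun X => (m X).re + q * κ.re) atTop (𝓝 (l.re + q * κ.re)) :=
      hmre.add_const _
    rcases lt_trichotomy q 0 with hq | hq | hq
    · constructor
      · intro h
        exfalso
        have h3 := h.norm
        simp only [Complex.norm_exp] at h3
        have hq' : 0 < -(q : ℝ) := by
          have : (q : ℝ) < 0 := by exact_mod_cast hq
          linarith
        have h5 : Tendsto (fun X : ℝ => (Gs c v X).re) atTop atTop := by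
          refine (hbd.add_atTop (Real.tendsto_log_atTop.const_mul_atTop hq')).congr' ?_
          filter_upwards [hre'] with X hX
          rw [hX]
        exact not_tendsto_nhds_of_tendsto_atTop (Real.tendsto_exp_atTop.comp h5) _ h3
      · rintro ⟨⟨h, -⟩, -⟩
        omega
    · subst hq
      have h6 : Tendsto (fun X : ℝ => Complex.exp (Gs c v X)) atTop (𝓝 ℓ) := by
        rw [← hl]
        refine ((Complex.continuous_exp.tendsto l).comp hm).congr' ?_
        filter_upwards [hform] with X hX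
        rw [hX, hnil]
        simp
      constructor
      · intro h
        exact ⟨⟨rfl, tendsto_nhds_unique h6 h⟩, hF0⟩
      · rintro ⟨⟨-, h⟩, -⟩
        rwa [← h]
    · constructor
      · intro h
        exfalso
        have hq' : -(q : ℝ) < 0 := by
          have : 0 < (q : ℝ) := by exact_mod_cast hq
          linarith
        refine hzero ?_ h
        refine (hbd.add_atBot (Real.tendsto_log_atTop.const_mul_atTop_of_neg hq')).congr' ?_
        filter_upwards [hre'] with X hX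
        rw [hX]
      · rintro ⟨⟨h, -⟩, -⟩
        omega
  · constructor
    · intro h
      exfalso
      obtain ⟨x, ys, rfl⟩ := List.exists_cons_of_ne_nil hnil
      refine hzero ?_ h
      have h1 := Abs_sum_atBot x (hxs x (by simp)) ys (fun z hz => hxs z (by simp [hz])) (-(q : ℝ))
      refine ((hmre.add_const (q * κ.re)).add_atBot h1).congr' ?_
      filter_upwards [hre] with X hX
      rw [hX]
      simp only [List.map_cons, List.sum_cons]
    · rintro ⟨-, h⟩
      exact absurd (hiff.1 h) hnil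

end BSDG
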