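import Pool.Agent.W_92892c.Defs

/-!
Definitions for the Mittag-Leffler smoothed Birch and Swinnerton-Dyer sum (MP_92892c_nt).

`mlSum W r θ X` is the sum over prime powers `q = p^m` of
`(α_p^m + β_p^m + r) / (m q) / Γ(2 + e^{iθ} (log q) / X)`.

Abstract part: `Es c v s = Σ c e^{-v s}`, `Gs c v X = Σ c / Γ(2 + v/X)`, the line integrals
`LT G b X = (1/2π) ∫ e^t t^{-2} G(log t / X) dy`, `t = b + iy`, and the domains
`Ss κ η = {s : |Im s| < η, |Im s| < κ Re s}`.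
-/

open MeasureTheory Set

namespace BSDG

open BSDS

/-- `Σ_{p, m ≥ 1} (psum a_p e_p m + r) / (m p^m) / Γ(2 + e^{iθ} m (log p) / X)`. -/
noncomputable def mlSum (W : WeierstrassCurve ℤ) (r : ℕ) (θ X : ℝ) : ℂ :=
  ∑' i : Nat.Primes × ℕ,
    ((((psum (ap W i.1) (ep W i.1) (i.2 + 1) : ℝ) + r) /
      (((i.2 : ℝ) + 1) * (i.1 : ℝ) ^ (i.2 + 1)) : ℝ) : ℂ) *
    (Complex.Gamma (2 + Complex.exp (θ * Complex.I) *
      ((((i.2 : ℝ) + 1) * Real.log (i.1 : ℝ) / X : ℝ) : ℂ)))⁻¹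

/-- `1/Γ(2+v)`. -/
noncomputable def gw (v : ℂ) : ℂ := (Complex.Gamma (2 + v))⁻¹

/-- Standing hypotheses on coefficients `c i` and frequencies `v i`. -/
structure GHyp {ι : Type} (c v : ι → ℂ) (K a : ℝ) : Prop where
  cnt : Countable ι
  K0 : 0 ≤ K
  apos : 0 < a
  vre : ∀ i, 0 ≤ (v i).re
  vim : ∀ i, |(v i).im| ≤ K * (v i).re
  sm : Summable (fun i => ‖c i‖ * Real.exp (-(a * (v i).re)))

/-- `Σ |c i| e^{-a Re (v i)}`. -/
noncomputable def Mg {ι : Type} (c v : ι → ℂ) (a : ℝ) : ℝ :=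
  ∑' i, ‖c i‖ * Real.exp (-(a * (v i).re))

/-- General Dirichlet series with complex frequencies. -/
noncomputable def Es {ι : Type} (c v : ι → ℂ) (s : ℂ) : ℂ :=
  ∑' i, c i * Complex.exp (-(v i * s))

/-- Its Mittag-Leffler mean at `0`. -/
noncomputable def Gs {ι : Type} (c v : ι → ℂ) (X : ℝ) : ℂ :=
  ∑' i, c i * gw (v i / X)

/-- `b + iy`. -/
noncomputable def tl (b y : ℝ) : ℂ := (b : ℂ) + y * Complex.I

/-- `e^t / t^2`. -/
noncomputable def ker (t : ℂ) : ℂ := Complex.exp t / t ^ 2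

/-- The line transform. -/
noncomputable def LT (G : ℂ → ℂ) (b X : ℝ) : ℂ :=
  ((1 / (2 * Real.pi) : ℝ) : ℂ) *
    ∫ y : ℝ, ker (tl b y) * G (Complex.log (tl b y) / X)

/-- `{s : |Im s| < η, |Im s| < κ Re s}`. -/
def Ss (κ η : ℝ) : Set ℂ := {s | |s.im| < η ∧ |s.im| < κ * s.re}

end BSDG
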