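import Pool.Agent.W_92892g.Ker

open MeasureTheory Set FourierTransform

namespace BSDG

lemma GInv_int (s c : ℝ) (hs : -1 < s) (hc : 0 < c) :
    IntegrableOn (fun x : ℝ => x ^ s * Real.exp (-(c * x))) (Ioi 0) := by
  have h := integrableOn_rpow_mul_exp_neg_mul_rpow hs one_pos hc
  refine h.congr_fun (fun x _ => ?_) measurableSet_Ioi
  simp

lemma GInv_norm (a r : ℂ) (x : ℝ) (hx : 0 < x) :
    ‖(x : ℂ) ^ a * Complex.exp (-(r * x))‖ = x ^ a.re * Real.exp (-(r.re * x)) := by
  rw [norm_mul, Complex.norm_cpow_eq_rpow_re_of_pos hx, Complex.norm_exp]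
  simp

lemma GInv_meas (a r : ℂ) :
    AEStronglyMeasurable (fun x : ℝ => (x : ℂ) ^ a * Complex.exp (-(r * x)))
      (volume.restrict (Ioi 0)) := by
  refine ContinuousOn.aestronglyMeasurable ?_ measurableSet_Ioi
  intro x hx
  refine ContinuousAt.continuousWithinAt ?_
  refine ContinuousAt.mul ?_ (by fun_prop)
  exact (Complex.continuousAt_ofReal_cpow_const x a (Or.inr (ne_of_gt hx)))

lemma GInv_int' (a r : ℂ) (ha : -1 < a.re) (hr : 0 < r.re) :
    IntegrableOn (fun x : ℝ => (x : ℂ) ^ a * Complex.exp (-(r * x))) (Ioi 0) := by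
  refine Integrable.mono' (GInv_int a.re r.re ha hr) (GInv_meas a r) ?_
  refine (ae_restrict_iff' measurableSet_Ioi).2 (Filter.Eventually.of_forall ?_)
  intro x hx
  rw [GInv_norm a r x hx]

lemma GInv_deriv (a r : ℂ) (ha : -1 < a.re) (hr : 0 < r.re) :
    DifferentiableAt ℂ
      (fun r : ℂ => ∫ x in Ioi (0 : ℝ), (x : ℂ) ^ a * Complex.exp (-(r * x))) r := by
  have h := hasDerivAt_integral_of_dominated_loc_of_deriv_le (μ := volume.restrict (Ioi (0:ℝ)))
    (F := fun (r : ℂ) (x : ℝ) => (x : ℂ) ^ a * Complex.exp (-(r * x)))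
    (F' := fun (r : ℂ) (x : ℝ) => (x : ℂ) ^ a * (Complex.exp (-(r * x)) * (-(x : ℂ))))
    (x₀ := r) (s := {z : ℂ | r.re / 2 < z.re})
    (bound := fun x : ℝ => x ^ (a.re + 1) * Real.exp (-(r.re / 2 * x)))
    ?_ ?_ ?_ ?_ ?_ ?_ ?_
  · exact h.2.differentiableAt
  · refine IsOpen.mem_nhds ?_ ?_
    · exact isOpen_lt continuous_const Complex.continuous_re
    · show r.re / 2 < r.re; linarith
  · exact Filter.Eventually.of_forall fun z => GInv_meas a z
  · exact GInv_int' a r ha hr
  · have := (GInv_meas a r).mul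
      (f := fun x : ℝ => (x : ℂ) ^ a * Complex.exp (-(r * x))) (g := fun x : ℝ => -(x : ℂ))
      (Continuous.aestronglyMeasurable (by fun_prop))
    refine this.congr (Filter.Eventually.of_forall fun x => ?_)
    simp only [Pi.mul_apply]; ring
  · refine (ae_restrict_iff' measurableSet_Ioi).2 (Filter.Eventually.of_forall ?_)
    intro x hx z hz
    have hx' : (0:ℝ) < x := hx
    have h1 : (x : ℂ) ^ a * (Complex.exp (-(z * x)) * (-(x : ℂ))) =
      (x : ℂ) ^ a * Complex.exp (-(z * x)) * (-(x : ℂ)) := by ring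
    rw [h1, norm_mul, GInv_norm a z x hx', norm_neg, Complex.norm_real, Real.norm_eq_abs,
      abs_of_pos hx', Real.rpow_add hx', Real.rpow_one]
    have h2 : Real.exp (-(z.re * x)) ≤ Real.exp (-(r.re / 2 * x)) := by
      refine Real.exp_le_exp.2 ?_
      have : r.re / 2 * x ≤ z.re * x := mul_le_mul_of_nonneg_right (le_of_lt hz) hx'.le
      linarith
    have h3 : 0 ≤ x ^ a.re * x := by positivity
    nlinarith [mul_le_mul_of_nonneg_left h2 h3]
  · exact GInv_int (a.re + 1) (r.re / 2) (by linarith) (by linarith)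
  · refine Filter.Eventually.of_forall fun x z _ => ?_
    have : HasDerivAt (fun z : ℂ => -(z * (x : ℂ))) (-(x : ℂ)) z := by
      have h0 := (hasDerivAt_id z).mul_const (-(x : ℂ))
      rw [one_mul] at h0
      refine h0.congr_of_eventuallyEq (Filter.Eventually.of_forall fun w => ?_)
      simp
    exact (this.cexp).const_mul _

lemma GInv_laplace (a r : ℂ) (ha : 0 < a.re) (hr : 0 < r.re) :
    ∫ x in Ioi (0 : ℝ), (x : ℂ) ^ (a - 1) * Complex.exp (-(r * x)) =
      Complex.Gamma a * Complex.exp (-(a * Complex.log r)) := by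
  set U : Set ℂ := {z : ℂ | 0 < z.re} with hU
  have hUo : IsOpen U := isOpen_lt continuous_const Complex.continuous_re
  have hUc : IsPreconnected U := (convex_halfSpace_re_gt 0).isPreconnected
  have hf : AnalyticOnNhd ℂ
      (fun r : ℂ => ∫ x in Ioi (0 : ℝ), (x : ℂ) ^ (a - 1) * Complex.exp (-(r * x))) U := by
    refine DifferentiableOn.analyticOnNhd ?_ hUo
    intro z hz
    exact (GInv_deriv (a - 1) z (by simp [ha]) hz).differentiableWithinAt
  have hg : AnalyticOnNhd ℂ
      (fun r : ℂ => Complex.Gamma a * Complex.exp (-(a * Complex.log r))) U := by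
    refine DifferentiableOn.analyticOnNhd ?_ hUo
    intro z hz
    have : DifferentiableAt ℂ Complex.log z := Complex.differentiableAt_log (Or.inl hz)
    refine DifferentiableAt.differentiableWithinAt ?_
    exact ((this.const_mul a).neg.cexp).const_mul _
  have h1 : (1 : ℂ) ∈ U := by simp [hU]
  have hfr : ∃ᶠ z in nhdsWithin (1 : ℂ) {(1 : ℂ)}ᶜ,
      (fun r : ℂ => ∫ x in Ioi (0 : ℝ), (x : ℂ) ^ (a - 1) * Complex.exp (-(r * x))) z =
      (fun r : ℂ => Complex.Gamma a * Complex.exp (-(a * Complex.log r))) z := by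
    have ht : Filter.Tendsto (fun n : ℕ => (((1 + 1 / ((n : ℝ) + 1) : ℝ)) : ℂ)) Filter.atTop
        (nhdsWithin (1 : ℂ) {(1 : ℂ)}ᶜ) := by
      refine tendsto_nhdsWithin_iff.2 ⟨?_, Filter.Eventually.of_forall fun n => ?_⟩
      · have h2 : Filter.Tendsto (fun n : ℕ => (1 + 1 / ((n : ℝ) + 1) : ℝ)) Filter.atTop
            (nhds (1 + 0)) := tendsto_const_nhds.add tendsto_one_div_add_atTop_nhds_zero_nat
        rw [add_zero] at h2
        have h3 := (Complex.continuous_ofReal.tendsto 1).comp h2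
        simpa [Function.comp_def] using h3
      · simp only [mem_compl_iff, mem_singleton_iff]
        intro h
        have h4 : (1 + 1 / ((n : ℝ) + 1) : ℝ) = 1 := by exact_mod_cast h
        have h5 : (0:ℝ) < 1 / ((n : ℝ) + 1) := by positivity
        linarith
    refine ht.frequently (Filter.Frequently.of_forall fun n => ?_)
    set q : ℝ := 1 + 1 / ((n : ℝ) + 1) with hq
    have hq0 : 0 < q := by positivity
    show ∫ x in Ioi (0 : ℝ), (x : ℂ) ^ (a - 1) * Complex.exp (-((q : ℂ) * x)) =
      Complex.Gamma a * Complex.exp (-(a * Complex.log (q : ℂ)))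
    rw [Complex.integral_cpow_mul_exp_neg_mul_Ioi ha hq0, mul_comm]
    congr 1
    rw [one_div, Complex.cpow_def_of_ne_zero (by
      exact inv_ne_zero (by exact_mod_cast hq0.ne')), Complex.log_inv]
    · congr 1; ring
    · rw [Complex.arg_ofReal_of_nonneg hq0.le]; exact Real.pi_pos.ne
  exact hf.eqOn_of_preconnected_of_frequently_eq hg hUc h1 hfr hr

/-- Laplace transform of `x^{1+v}`: `∫_0^∞ x^{1+v} e^{-tx} dx = Γ(2+v) t^{-(2+v)}`, `Re t > 0`
(`Complex.integral_cpow_mul_exp_neg_mul_Ioi`). -/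
theorem laplace_pow (v : ℂ) (hv : 0 ≤ v.re) (b y : ℝ) (hb : 0 < b) :
    ∫ x in Ioi (0 : ℝ), (x : ℂ) ^ (1 + v) * Complex.exp (-(tl b y * x)) =
      Complex.Gamma (2 + v) * (Complex.exp (-(v * Complex.log (tl b y))) / tl b y ^ 2) := by
  have h := GInv_laplace (2 + v) (tl b y) (by simp; linarith) (by rw [tl_re]; exact hb)
  have e : (2 + v) - 1 = 1 + v := by ring
  rw [e] at h
  rw [h]
  congr 1
  have ht := tl_ne b y hb
  have e2 : -((2 + v) * Complex.log (tl b y)) =
      -(v * Complex.log (tl b y)) - (Complex.log (tl b y) + Complex.log (tl b y)) := by ring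
  rw [e2, Complex.exp_sub, Complex.exp_add, Complex.exp_log ht, sq]

/-- Fourier inversion at `x = 1` for `f x = x^{1+v} e^{-bx}` on `(0, ∞)`, `f x = 0` elsewhere
(`MeasureTheory.Integrable.fourierInv_fourier_eq`, continuity at `1`; the transform at `w` is
`laplace_pow` at `y = 2πw`, integrable because `‖t^{-(2+v)}‖ ≤ C/(b²+y²)`); substitution
`y = 2πw`.  `Γ(2+v) ≠ 0`. -/
theorem gw_eq (v : ℂ) (hv : 0 ≤ v.re) (b : ℝ) (hb : 1 ≤ b) :
    gw v = ((1 / (2 * Real.pi) : ℝ) : ℂ) *
      ∫ y : ℝ, ker (tl b y) * Complex.exp (-(v * Complex.log (tl b y))) := by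
  have hb0 : 0 < b := by linarith
  set f : ℝ → ℂ := (Ioi (0:ℝ)).indicator
    (fun x : ℝ => (x : ℂ) ^ (1 + v) * Complex.exp (-((b : ℂ) * x))) with hf
  have hfi : Integrable f := by
    rw [hf, integrable_indicator_iff measurableSet_Ioi]
    exact GInv_int' (1 + v) b (by simp; linarith) (by simpa using hb0)
  have hF : ∀ w : ℝ, 𝓕 f w = Complex.Gamma (2 + v) *
      (Complex.exp (-(v * Complex.log (tl b (2 * Real.pi * w)))) / tl b (2 * Real.pi * w) ^ 2) := by
    intro w
    rw [Real.fourier_real_eq_integral_exp_smul, ← laplace_pow v hv b _ hb0,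
      ← integral_indicator measurableSet_Ioi]
    congr 1
    ext x
    simp only [hf, indicator]
    split_ifs with hx
    · rw [smul_eq_mul, mul_left_comm, ← Complex.exp_add]
      congr 2
      simp only [tl]
      push_cast
      ring
    · simp
  have hker : Integrable (fun y : ℝ => ker (tl b y) *
      Complex.exp (-(v * Complex.log (tl b y)))) := by
    refine Integrable.mono' ((ker_integrable b hb).norm.mul_const
      (Real.exp (|v.im| * (Real.pi / 2)))) ?_ (Filter.Eventually.of_forall fun y => ?_)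
    · refine Continuous.aestronglyMeasurable ?_
      exact (ker_cont b hb0).mul (((logtl_cont b hb0).const_mul v).neg.cexp)
    · rw [norm_mul]
      refine mul_le_mul_of_nonneg_left ?_ (norm_nonneg _)
      refine (norm_exp_log v b y hb0).trans (Real.exp_le_exp.2 ?_)
      have h1 : 0 ≤ Real.log ‖tl b y‖ := Real.log_nonneg (hb.trans (le_norm_tl b y hb0.le))
      have h2 := mul_nonneg hv h1
      linarith
  have hexp : ∀ y : ℝ, Complex.exp (-(v * Complex.log (tl b y))) / tl b y ^ 2 =
      Complex.exp (-(tl b y)) *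
        (ker (tl b y) * Complex.exp (-(v * Complex.log (tl b y)))) := by
    intro y
    have h1 : Complex.exp (-(tl b y)) * Complex.exp (tl b y) = 1 := by
      rw [← Complex.exp_add]; simp
    simp only [ker]
    calc _ = (1:ℂ) * (Complex.exp (-(v * Complex.log (tl b y))) / tl b y ^ 2) := by ring
      _ = _ := by rw [← h1]; ring
  have hexpn : ∀ y : ℝ, ‖Complex.exp (-(tl b y))‖ = Real.exp (-b) := by
    intro y
    rw [Complex.norm_exp]
    congr 1
    simp [tl_re]
  have hG : Integrable (fun y : ℝ => Complex.exp (-(v * Complex.log (tl b y))) / tl b y ^ 2) := by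
    refine Integrable.mono' (hker.norm.const_mul (Real.exp (-b))) ?_
      (Filter.Eventually.of_forall fun y => ?_)
    · refine Continuous.aestronglyMeasurable ?_
      refine Continuous.div (((logtl_cont b hb0).const_mul v).neg.cexp) ?_ ?_
      · simp only [tl]; fun_prop
      · intro y; exact pow_ne_zero 2 (tl_ne b y hb0)
    · rw [hexp y, norm_mul, hexpn]
  have h2pi : (2 * Real.pi) ≠ 0 := by positivity
  have hFi : Integrable (𝓕 f) := by
    have h := (hG.comp_mul_left' h2pi).const_mul (Complex.Gamma (2 + v))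
    refine h.congr (Filter.Eventually.of_forall fun w => ?_)
    simp only [hF w]
  have hca : ContinuousAt f 1 := by
    have h1 : ContinuousAt (fun x : ℝ => (x : ℂ) ^ (1 + v) * Complex.exp (-((b : ℂ) * x))) 1 := by
      refine ContinuousAt.mul ?_ (by fun_prop)
      exact Complex.continuousAt_ofReal_cpow_const 1 (1 + v) (Or.inr one_ne_zero)
    refine h1.congr ?_
    filter_upwards [isOpen_Ioi.mem_nhds (show (1:ℝ) ∈ Ioi (0:ℝ) by simp)] with x hx
    simp only [hf, indicator_of_mem hx]
  have hinv := hfi.fourierInv_fourier_eq hFi hca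
  have hf1 : f 1 = Complex.exp (-(b : ℂ)) := by
    simp only [hf]
    rw [indicator_of_mem (by simp)]
    simp
  rw [hf1, Real.fourierInv_eq'] at hinv
  have hint : ∫ w : ℝ, Complex.exp ((↑(2 * Real.pi * inner ℝ w 1) * Complex.I)) • 𝓕 f w =
      Complex.Gamma (2 + v) * (Complex.exp (-(b : ℂ)) *
      ∫ w : ℝ, ker (tl b (2 * Real.pi * w)) *
        Complex.exp (-(v * Complex.log (tl b (2 * Real.pi * w))))) := by
    rw [← integral_const_mul, ← integral_const_mul]
    congr 1
    ext w
    rw [hF w, hexp, smul_eq_mul]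
    have e1 : Complex.exp ((↑(2 * Real.pi * inner ℝ w (1:ℝ)) * Complex.I)) *
        Complex.exp (-(tl b (2 * Real.pi * w))) = Complex.exp (-(b : ℂ)) := by
      rw [← Complex.exp_add]
      congr 1
      simp [tl]
    rw [← e1]
    ring
  rw [hint] at hinv
  have hsub := Measure.integral_comp_mul_left
    (fun y : ℝ => ker (tl b y) * Complex.exp (-(v * Complex.log (tl b y)))) (2 * Real.pi)
  rw [hsub, abs_of_pos (by positivity)] at hinv
  have hG0 : Complex.Gamma (2 + v) ≠ 0 :=
    Complex.Gamma_ne_zero_of_re_pos (by simp; linarith)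
  have he0 : Complex.exp (-(b : ℂ)) ≠ 0 := Complex.exp_ne_zero _
  have hfin : Complex.Gamma (2 + v) * ((((2 * Real.pi)⁻¹ : ℝ) : ℂ) *
      ∫ y : ℝ, ker (tl b y) * Complex.exp (-(v * Complex.log (tl b y)))) = 1 := by
    have h3 : Complex.exp (-(b : ℂ)) * (Complex.Gamma (2 + v) * ((((2 * Real.pi)⁻¹ : ℝ) : ℂ) *
      ∫ y : ℝ, ker (tl b y) * Complex.exp (-(v * Complex.log (tl b y))))) =
      Complex.exp (-(b : ℂ)) * 1 := by
      rw [mul_one]
      calc _ = Complex.Gamma (2 + v) * (Complex.exp (-(b : ℂ)) *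
          ((2 * Real.pi)⁻¹ • ∫ y : ℝ, ker (tl b y) *
            Complex.exp (-(v * Complex.log (tl b y))))) := by
            rw [Complex.real_smul]; ring
        _ = _ := hinv
    exact mul_left_cancel₀ he0 h3
  rw [gw, inv_eq_of_mul_eq_one_right hfin, one_div]

/-- The same in the form of a line transform. -/
theorem gw_LT (v : ℂ) (hv : 0 ≤ v.re) (b X : ℝ) (hb : 1 ≤ b) (hX : 0 < X) :
    gw (v / X) = LT (fun s => Complex.exp (-(v * s))) b X := by
  have h : 0 ≤ (v / (X : ℂ)).re := by
    rw [Complex.div_ofReal_re]; positivity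
  rw [gw_eq (v / X) h b hb, LT]
  congr 3
  ext y
  congr 2
  ring_nf

/-- `gw 0 = 1`. -/
theorem LT_one (b X : ℝ) (hb : 1 ≤ b) (hX : 0 < X) : LT (fun _ => 1) b X = 1 := by
  have h := gw_LT 0 (by simp) b X hb hX
  have h0 : gw (0 / (X : ℂ)) = 1 := by
    simp [gw]
  rw [h0] at h
  have e : (fun s : ℂ => Complex.exp (-(0 * s))) = fun _ => 1 := by
    ext s; simp
  rw [e] at h
  exact h.symm

end BSDG
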