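import Pool.Agent.W_92892g.Defs

open MeasureTheory Set

namespace BSDG

theorem tl_re (b y : ℝ) : (tl b y).re = b := by
  simp [tl]

theorem tl_im (b y : ℝ) : (tl b y).im = y := by
  simp [tl]

theorem tl_ne (b y : ℝ) (hb : 0 < b) : tl b y ≠ 0 := by
  intro h
  have h1 := tl_re b y
  rw [h, Complex.zero_re] at h1
  exact hb.ne h1

theorem le_norm_tl (b y : ℝ) (hb : 0 ≤ b) : b ≤ ‖tl b y‖ := by
  have h1 := Complex.re_le_norm (tl b y)
  rwa [tl_re] at h1

theorem norm_tl_sq (b y : ℝ) : ‖tl b y‖ ^ 2 = b ^ 2 + y ^ 2 := by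
  rw [Complex.sq_norm, Complex.normSq_apply, tl_re, tl_im]
  ring

theorem Ker_cont_tl (b : ℝ) : Continuous (fun y : ℝ => tl b y) := by
  unfold tl
  fun_prop

theorem Ker_norm_tl_le (b y : ℝ) (hb : 0 ≤ b) : ‖tl b y‖ ≤ b + |y| := by
  unfold tl
  refine (norm_add_le _ _).trans ?_
  rw [norm_mul, Complex.norm_I, mul_one, Complex.norm_real, Complex.norm_real,
    Real.norm_eq_abs, Real.norm_eq_abs, abs_of_nonneg hb]

/-- `Re (log t / X) = log ‖t‖ / X`. -/
theorem logtl_re (b y X : ℝ) : (Complex.log (tl b y) / X).re = Real.log ‖tl b y‖ / X := by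
  rw [Complex.div_ofReal_re, Complex.log_re]

theorem logtl_im (b y X : ℝ) : (Complex.log (tl b y) / X).im = (tl b y).arg / X := by
  rw [Complex.div_ofReal_im, Complex.log_im]

/-- `|arg t| < π/2`. -/
theorem abs_arg_tl (b y : ℝ) (hb : 0 < b) : |(tl b y).arg| < Real.pi / 2 := by
  rw [Complex.abs_arg_lt_pi_div_two_iff, tl_re]
  exact Or.inl hb

/-- `‖log t‖ ≤ log ‖t‖ + π/2 ≤ log (b + |y|) + π/2` for `b ≥ 1`; then `log x ≤ 2 √x`, say. -/
theorem norm_log_tl (b y : ℝ) (hb : 1 ≤ b) :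
    ‖Complex.log (tl b y)‖ ≤ 2 * Real.sqrt (b + |y|) + 2 := by
  have h1 := Complex.norm_le_abs_re_add_abs_im (Complex.log (tl b y))
  rw [Complex.log_re, Complex.log_im] at h1
  have h2 : 1 ≤ ‖tl b y‖ := hb.trans (le_norm_tl b y (by linarith))
  rw [abs_of_nonneg (Real.log_nonneg h2)] at h1
  have h3 := abs_arg_tl b y (by linarith)
  have h4 : Real.log ‖tl b y‖ ≤ Real.log (b + |y|) :=
    Real.log_le_log (by linarith) (Ker_norm_tl_le b y (by linarith))
  have hx : 0 < b + |y| := by linarith [abs_nonneg y]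
  have h5 : Real.log (b + |y|) ≤ 2 * (Real.sqrt (b + |y|) - 1) := by
    have h6 : Real.log (b + |y|) = 2 * Real.log (Real.sqrt (b + |y|)) := by
      rw [Real.log_sqrt hx.le]
      ring
    rw [h6]
    have h7 := Real.log_le_sub_one_of_pos (Real.sqrt_pos.2 hx)
    linarith
  have h8 := Real.pi_lt_four
  linarith

/-- `log b ≤ ‖log t‖` for `b ≥ 1`. -/
theorem log_le_norm_log_tl (b y : ℝ) (hb : 1 ≤ b) :
    Real.log b ≤ ‖Complex.log (tl b y)‖ := by
  have h1 := Complex.re_le_norm (Complex.log (tl b y))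
  rw [Complex.log_re] at h1
  exact (Real.log_le_log (by linarith) (le_norm_tl b y (by linarith))).trans h1

theorem ker_cont (b : ℝ) (hb : 0 < b) : Continuous (fun y : ℝ => ker (tl b y)) := by
  unfold ker
  exact (Complex.continuous_exp.comp (Ker_cont_tl b)).div ((Ker_cont_tl b).pow 2)
    fun y => pow_ne_zero 2 (tl_ne b y hb)

theorem logtl_cont (b : ℝ) (hb : 0 < b) : Continuous (fun y : ℝ => Complex.log (tl b y)) := by
  refine (Ker_cont_tl b).clog fun y => ?_
  rw [Complex.mem_slitPlane_iff, tl_re]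
  exact Or.inl hb

/-- `‖e^t/t²‖ = e^b/(b² + y²) ≤ e^b/(1+y²)` for `b ≥ 1`. -/
theorem ker_norm_le (b y : ℝ) (hb : 1 ≤ b) :
    ‖ker (tl b y)‖ ≤ Real.exp b / (1 + y ^ 2) := by
  unfold ker
  rw [norm_div, Complex.norm_exp, norm_pow, norm_tl_sq, tl_re]
  refine div_le_div_of_nonneg_left (Real.exp_pos b).le (by positivity) ?_
  nlinarith

theorem ker_integrable (b : ℝ) (hb : 1 ≤ b) : Integrable (fun y : ℝ => ker (tl b y)) := by
  have h1 : Integrable (fun y : ℝ => Real.exp b / (1 + y ^ 2)) := by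
    have h2 := integrable_inv_one_add_sq.const_mul (Real.exp b)
    exact h2
  exact h1.mono' (ker_cont b (by linarith)).aestronglyMeasurable
    (Filter.Eventually.of_forall fun y => ker_norm_le b y hb)

/-- `∫ √(b + |y|) / (1 + y²) < ∞`. -/
theorem sqrt_integrable (b : ℝ) (hb : 0 ≤ b) :
    Integrable (fun y : ℝ => Real.sqrt (b + |y|) / (1 + y ^ 2)) := by
  have h1 : Integrable (fun y : ℝ => (1 + ‖y‖) ^ (-(3 / 2 : ℝ))) :=
    integrable_one_add_norm (by simp; norm_num)
  refine (h1.const_mul (2 * Real.sqrt (b + 1))).mono' ?_ ?_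
  · refine Continuous.aestronglyMeasurable ?_
    refine Continuous.div ?_ (by fun_prop) fun y => by positivity
    exact Real.continuous_sqrt.comp (continuous_const.add continuous_abs)
  · refine Filter.Eventually.of_forall fun y => ?_
    rw [Real.norm_of_nonneg (by positivity), Real.norm_eq_abs]
    set u : ℝ := 1 + |y| with hu
    have hy := abs_nonneg y
    have hu1 : 1 ≤ u := by linarith
    have hu0 : 0 < u := by linarith
    have h2 : Real.sqrt (b + |y|) ≤ Real.sqrt (b + 1) * Real.sqrt u := by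
      rw [← Real.sqrt_mul (by linarith)]
      apply Real.sqrt_le_sqrt
      rw [hu]
      nlinarith
    have h3 : u ^ 2 / 2 ≤ 1 + y ^ 2 := by
      rw [hu, ← sq_abs y]
      nlinarith [sq_nonneg (1 - |y|)]
    have h4 : u ^ (-(3 / 2 : ℝ)) = Real.sqrt u / u ^ 2 := by
      rw [Real.sqrt_eq_rpow, ← Real.rpow_natCast u 2, ← Real.rpow_sub hu0]
      norm_num
    rw [h4]
    calc Real.sqrt (b + |y|) / (1 + y ^ 2) ≤ (Real.sqrt (b + 1) * Real.sqrt u) / (u ^ 2 / 2) := by
          gcongr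
      _ = 2 * Real.sqrt (b + 1) * (Real.sqrt u / u ^ 2) := by
          field_simp

/-- A continuous function with `‖f y‖ ≤ C (1 + ‖log (b+iy)‖)` times the kernel is integrable. -/
theorem ker_mul_integrable (b : ℝ) (hb : 1 ≤ b) (f : ℝ → ℂ) (hf : Continuous f) (C : ℝ)
    (hC : ∀ y, ‖f y‖ ≤ C * (1 + ‖Complex.log (tl b y)‖)) :
    Integrable (fun y : ℝ => ker (tl b y) * f y) := by
  have hC0 : 0 ≤ C := by
    by_contra hneg
    have h1 := hC 0
    have h2 := norm_nonneg (f 0)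
    have h3 : 0 < 1 + ‖Complex.log (tl b 0)‖ := by positivity
    nlinarith
  have h1 : Integrable (fun y : ℝ => (1 + y ^ 2)⁻¹) := integrable_inv_one_add_sq
  have h2 := (h1.const_mul (3 * (C * Real.exp b))).add
    ((sqrt_integrable b (by linarith)).const_mul (2 * (C * Real.exp b)))
  refine h2.mono' ((ker_cont b (by linarith)).mul hf).aestronglyMeasurable
    (Filter.Eventually.of_forall fun y => ?_)
  have h3 := ker_norm_le b y hb
  have h4 := norm_log_tl b y hb
  have h5 : ‖f y‖ ≤ C * (3 + 2 * Real.sqrt (b + |y|)) :=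
    (hC y).trans (mul_le_mul_of_nonneg_left (by linarith) hC0)
  rw [norm_mul]
  calc ‖ker (tl b y)‖ * ‖f y‖
      ≤ (Real.exp b / (1 + y ^ 2)) * (C * (3 + 2 * Real.sqrt (b + |y|))) := by gcongr
    _ = 3 * (C * Real.exp b) * (1 + y ^ 2)⁻¹ +
        2 * (C * Real.exp b) * (Real.sqrt (b + |y|) / (1 + y ^ 2)) := by
        rw [div_eq_mul_inv, div_eq_mul_inv]
        ring

/-- `‖t^{-v}‖ ≤ e^{-Re v log ‖t‖ + |Im v| π/2}` on `Re t > 0`. -/
theorem norm_exp_log (v : ℂ) (b y : ℝ) (hb : 0 < b) :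
    ‖Complex.exp (-(v * Complex.log (tl b y)))‖ ≤
      Real.exp (-(v.re * Real.log ‖tl b y‖) + |v.im| * (Real.pi / 2)) := by
  rw [Complex.norm_exp, Complex.neg_re, Complex.mul_re, Complex.log_re, Complex.log_im]
  apply Real.exp_le_exp.2
  have h1 : v.im * (tl b y).arg ≤ |v.im| * (Real.pi / 2) := by
    refine (le_abs_self _).trans ?_
    rw [abs_mul]
    exact mul_le_mul_of_nonneg_left (abs_arg_tl b y hb).le (abs_nonneg _)
  linarith

theorem Ss_open (κ η : ℝ) : IsOpen (Ss κ η) := by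
  unfold Ss
  rw [Set.ofPred_and]
  refine IsOpen.inter ?_ ?_
  · exact isOpen_lt (continuous_abs.comp Complex.continuous_im) continuous_const
  · exact isOpen_lt (continuous_abs.comp Complex.continuous_im)
      (continuous_const.mul Complex.continuous_re)

theorem Ss_convex (κ η : ℝ) : Convex ℝ (Ss κ η) := by
  intro x hx y hy a b ha hb hab
  obtain ⟨hx1, hx2⟩ := hx
  obtain ⟨hy1, hy2⟩ := hy
  have hre : (a • x + b • y).re = a * x.re + b * y.re := by simp
  have him : (a • x + b • y).im = a * x.im + b * y.im := by simp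
  have h1 : |a * x.im + b * y.im| ≤ a * |x.im| + b * |y.im| := by
    refine (abs_add_le _ _).trans ?_
    rw [abs_mul, abs_mul, abs_of_nonneg ha, abs_of_nonneg hb]
  have key : ∀ p q r t : ℝ, p < q → r < t → a * p + b * r < a * q + b * t := by
    intro p q r t h2 h3
    rcases ha.eq_or_lt with h | h
    · have hb1 : b = 1 := by linarith
      rw [← h, hb1]
      linarith
    · have h4 : a * p < a * q := mul_lt_mul_of_pos_left h2 h
      have h5 : b * r ≤ b * t := mul_le_mul_of_nonneg_left h3.le hb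
      linarith
  refine ⟨?_, ?_⟩
  · rw [him]
    have h2 := key _ _ _ _ hx1 hy1
    have h3 : a * η + b * η = η := by rw [← add_mul, hab, one_mul]
    linarith
  · rw [him, hre]
    have h2 := key _ _ _ _ hx2 hy2
    have h3 : a * (κ * x.re) + b * (κ * y.re) = κ * (a * x.re + b * y.re) := by ring
    linarith

theorem Ss_re_pos {κ η : ℝ} (hκ : 0 < κ) {s : ℂ} (hs : s ∈ Ss κ η) : 0 < s.re := by
  have h1 := hs.2
  have h2 := abs_nonneg s.im
  exact (mul_pos_iff_of_pos_left hκ).1 (lt_of_le_of_lt h2 h1)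

theorem Ss_mono {κ η κ' η' : ℝ} (hκ0 : 0 < κ) (hκ : κ ≤ κ') (hη : η ≤ η') :
    Ss κ η ⊆ Ss κ' η' := by
  intro s hs
  have h1 := Ss_re_pos hκ0 hs
  exact ⟨lt_of_lt_of_le hs.1 hη, lt_of_lt_of_le hs.2 (mul_le_mul_of_nonneg_right hκ h1.le)⟩

/-- For `b ≥ 3` and `X > π/(2η)` the points `log t / X`, `Re t = b`, lie in `Ss 2 η`:
`|arg t| / log ‖t‖ ≤ (π/2) / log 3 < 2` (`log 3 > 1`). -/
theorem logtl_mem (b y X η : ℝ) (hb : 3 ≤ b) (hη : 0 < η) (hX : Real.pi / (2 * η) < X) :
    Complex.log (tl b y) / X ∈ Ss 2 η := by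
  have hX0 : 0 < X := lt_of_le_of_lt (by positivity) hX
  have h1 := abs_arg_tl b y (by linarith)
  have h2 : Real.pi / 2 < η * X := by
    rw [div_lt_iff₀ (by positivity)] at hX
    linarith
  have h3 : 1 < Real.log ‖tl b y‖ := by
    have h4 : b ≤ ‖tl b y‖ := le_norm_tl b y (by linarith)
    rw [Real.lt_log_iff_exp_lt (by linarith)]
    have h5 := Real.exp_one_lt_d9
    linarith
  refine ⟨?_, ?_⟩
  · rw [logtl_im, abs_div, abs_of_pos hX0, div_lt_iff₀ hX0]
    linarith
  · rw [logtl_im, logtl_re, abs_div, abs_of_pos hX0, ← mul_div_assoc]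
    apply div_lt_div_of_pos_right _ hX0
    have h4 := Real.pi_lt_four
    linarith

end BSDG
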