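import Pool.Agent.W_92892c.Euler

open Set Filter Topology

namespace BSDG

open BSDS

/-- The zeros of a non zero entire function are isolated, hence countable. -/
theorem zeros_countable (L : ℂ → ℂ) (hL : Differentiable ℂ L) (s₀ : ℂ) (h0 : L s₀ ≠ 0) :
    {s : ℂ | L s = 0}.Countable := by
  have hd : DiscreteTopology {s : ℂ | L s = 0} := by
    rw [discreteTopology_subtype_iff]
    intro x _
    rw [Filter.inf_principal_eq_bot]
    rcases (hL.analyticAt x).eventually_eq_zero_or_eventually_ne_zero with h | h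
    · exfalso
      have h1 : L = fun _ => 0 := by
        apply AnalyticOnNhd.eq_of_eventuallyEq (z₀ := x) (fun z _ => hL.analyticAt z)
          (fun z _ => analyticAt_const)
        exact h
      exact h0 (by rw [h1])
    · exact h
  exact (HereditarilyLindelofSpace.isLindelof {s : ℂ | L s = 0}).countable hd

/-- `θ = arg (x e^{iθ})` for `x > 0`, `|θ| < π/2`. -/
theorem rays_countable (L : ℂ → ℂ) (hL : Differentiable ℂ L) (s₀ : ℂ) (h0 : L s₀ ≠ 0) :
    {θ : ℝ | |θ| < Real.pi / 2 ∧ ∃ x : ℝ, 0 < x ∧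
      L (1 + x * Complex.exp (θ * Complex.I)) = 0}.Countable := by
  refine ((zeros_countable L hL s₀ h0).image (fun s => Complex.arg (s - 1))).mono ?_
  rintro θ ⟨hθ, x, hx, hL0⟩
  refine ⟨_, hL0, ?_⟩
  show Complex.arg (1 + x * Complex.exp (θ * Complex.I) - 1) = θ
  rw [add_sub_cancel_left, Complex.exp_mul_I]
  apply Complex.arg_mul_cos_add_sin_mul_I hx
  have h1 := abs_lt.1 hθ
  have h2 := Real.pi_pos
  constructor
  · linarith [h1.1]
  · linarith [h1.2]

theorem countable_curves : Countable (WeierstrassCurve ℤ) := by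
  apply Function.Injective.countable
    (f := fun W : WeierstrassCurve ℤ => (W.a₁, W.a₂, W.a₃, W.a₄, W.a₆))
  intro W W' h
  simp only [Prod.mk.injEq] at h
  obtain ⟨h1, h2, h3, h4, h5⟩ := h
  exact WeierstrassCurve.ext h1 h2 h3 h4 h5

/-- Identity theorem: the entire function with the given values on `Re s > 3/2` is unique. -/
theorem L_unique (W : WeierstrassCurve ℤ) (L L' : ℂ → ℂ) (hL : Differentiable ℂ L)
    (hL' : Differentiable ℂ L')
    (hprod : ∀ s : ℂ, 3 / 2 < s.re → Tendsto (fun N : ℕ =>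
      ∏ p ∈ (Finset.range N).filter Nat.Prime, (locFactor W p s)⁻¹) atTop (𝓝 (L s)))
    (hprod' : ∀ s : ℂ, 3 / 2 < s.re → Tendsto (fun N : ℕ =>
      ∏ p ∈ (Finset.range N).filter Nat.Prime, (locFactor W p s)⁻¹) atTop (𝓝 (L' s))) :
    L = L' := by
  apply AnalyticOnNhd.eq_of_eventuallyEq (z₀ := 4) (fun z _ => hL.analyticAt z)
    (fun z _ => hL'.analyticAt z)
  have hopen : IsOpen {s : ℂ | 3 / 2 < s.re} := isOpen_lt continuous_const Complex.continuous_re
  have hmem : {s : ℂ | 3 / 2 < s.re} ∈ 𝓝 (4 : ℂ) := by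
    apply hopen.mem_nhds
    show (3 / 2 : ℝ) < (4 : ℂ).re
    norm_num
  filter_upwards [hmem] with s hs
  exact tendsto_nhds_unique (hprod s hs) (hprod' s hs)

/-- Union over the countably many `W`; for each `W` there is at most one `L` (`L_unique`), and
`L 4 ≠ 0` by `euler_exp`. -/
theorem exists_Z : ∃ Z : Set ℝ, Z.Countable ∧ ∀ θ : ℝ, θ ∉ Z → |θ| < Real.pi / 2 →
    ∀ (W : WeierstrassCurve ℤ) (L : ℂ → ℂ), Differentiable ℂ L →
      (∀ s : ℂ, 3 / 2 < s.re → Tendsto (fun N : ℕ =>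
        ∏ p ∈ (Finset.range N).filter Nat.Prime, (locFactor W p s)⁻¹) atTop (𝓝 (L s))) →
      ∀ x : ℝ, 0 < x → L (1 + x * Complex.exp (θ * Complex.I)) ≠ 0 := by
  haveI := countable_curves
  refine ⟨⋃ W : WeierstrassCurve ℤ, {θ : ℝ | |θ| < Real.pi / 2 ∧ ∃ L : ℂ → ℂ,
    Differentiable ℂ L ∧
      (∀ s : ℂ, 3 / 2 < s.re → Tendsto (fun N : ℕ =>
        ∏ p ∈ (Finset.range N).filter Nat.Prime, (locFactor W p s)⁻¹) atTop (𝓝 (L s))) ∧
      ∃ x : ℝ, 0 < x ∧ L (1 + x * Complex.exp (θ * Complex.I)) = 0}, ?_, ?_⟩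
  · apply Set.countable_iUnion
    intro W
    by_cases hex : ∃ L : ℂ → ℂ, Differentiable ℂ L ∧
      (∀ s : ℂ, 3 / 2 < s.re → Tendsto (fun N : ℕ =>
        ∏ p ∈ (Finset.range N).filter Nat.Prime, (locFactor W p s)⁻¹) atTop (𝓝 (L s)))
    · obtain ⟨L₀, hL₀, hprod₀⟩ := hex
      have h4 : L₀ (1 + 3) ≠ 0 := by
        rw [euler_exp W L₀ hprod₀ 3 (by norm_num)]
        exact Complex.exp_ne_zero _
      refine (rays_countable L₀ hL₀ _ h4).mono ?_
      rintro θ ⟨hθ, L, hL, hprod, x, hx, h0⟩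
      have : L = L₀ := L_unique W L L₀ hL hL₀ hprod hprod₀
      subst this
      exact ⟨hθ, x, hx, h0⟩
    · convert Set.countable_empty
      rw [Set.eq_empty_iff_forall_notMem]
      rintro θ ⟨_, L, hL, hprod, _⟩
      exact hex ⟨L, hL, hprod⟩
  · intro θ hθ hθ2 W L hL hprod x hx h0
    apply hθ
    rw [Set.mem_iUnion]
    exact ⟨W, hθ2, L, hL, hprod, x, hx, h0⟩

end BSDG
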