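import Pool.Agent.W_92892c.Euler

open Set Filter Topology

namespace BSDG

open BSDS

/-- coefficients of `log ζ(1 + s)` -/
noncomputable def zW (i : Nat.Primes × ℕ) : ℝ := 1 / (((i.2 : ℝ) + 1) * (i.1 : ℝ) ^ (i.2 + 1))

theorem zW_pos (i : Nat.Primes × ℕ) : 0 < zW i := by
  unfold zW
  have hp : (0 : ℝ) < ((i.1 : ℕ) : ℝ) := by exact_mod_cast i.1.2.pos
  positivity

lemma Zeta_zW_le (i : Nat.Primes × ℕ) : zW i ≤ 1 := by
  unfold zW
  have hp : (1 : ℝ) ≤ ((i.1 : ℕ) : ℝ) := by exact_mod_cast i.1.2.one_le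
  have h1 : (1 : ℝ) ≤ ((i.1 : ℕ) : ℝ) ^ (i.2 + 1) := one_le_pow₀ hp
  have h2 : (1 : ℝ) ≤ (i.2 : ℝ) + 1 := by
    have : (0 : ℝ) ≤ (i.2 : ℝ) := Nat.cast_nonneg _
    linarith
  rw [div_le_one (by positivity)]
  nlinarith

/-- The terms are at most `p^{-4(m+1)}`. -/
theorem zW_summable : Summable (fun i : Nat.Primes × ℕ => zW i * Real.exp (-(3 * uW i))) := by
  have hA : Summable (fun p : Nat.Primes => (((p : ℕ) : ℝ) ^ 2)⁻¹) := by
    have h : Summable (fun n : ℕ => ((n : ℝ) ^ 2)⁻¹) := Real.summable_nat_pow_inv.2 (by norm_num)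
    exact h.comp_injective (f := fun n : ℕ => ((n : ℝ) ^ 2)⁻¹) (i := fun p : Nat.Primes => (p : ℕ))
      Nat.Primes.coe_nat_injective
  have hB : Summable (fun m : ℕ => ((1 / 2 : ℝ)) ^ m) :=
    summable_geometric_of_lt_one (by norm_num) (by norm_num)
  have hAB := hA.mul_of_nonneg hB (fun p => by positivity) (fun m => by positivity)
  refine Summable.of_nonneg_of_le (fun i => mul_nonneg (zW_pos i).le (Real.exp_pos _).le)
    (fun i => ?_) hAB
  have hp : (2 : ℝ) ≤ ((i.1 : ℕ) : ℝ) := by exact_mod_cast i.1.2.two_le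
  have hp0 : (0 : ℝ) < ((i.1 : ℕ) : ℝ) := by linarith
  rw [Euler_exp_uW]
  have h2 : (0 : ℝ) ≤ ((((i.1 : ℕ) : ℝ) ^ 3)⁻¹) ^ (i.2 + 1) := by positivity
  refine (mul_le_mul_of_nonneg_right (Zeta_zW_le i) h2).trans ?_
  rw [one_mul, pow_succ, mul_comm]
  have h3 : (((i.1 : ℕ) : ℝ) ^ 3)⁻¹ ≤ (((i.1 : ℕ) : ℝ) ^ 2)⁻¹ := by
    apply inv_anti₀ (by positivity)
    exact pow_le_pow_right₀ (by linarith) (by norm_num)
  have h4 : (((i.1 : ℕ) : ℝ) ^ 3)⁻¹ ≤ 1 / 2 := by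
    rw [inv_le_comm₀ (by positivity) (by norm_num)]
    have : (8 : ℝ) ≤ ((i.1 : ℕ) : ℝ) ^ 3 := by
      calc (8 : ℝ) = 2 ^ 3 := by norm_num
        _ ≤ _ := pow_le_pow_left₀ (by norm_num) hp 3
    linarith
  have h5 : ((((i.1 : ℕ) : ℝ) ^ 3)⁻¹) ^ i.2 ≤ (1 / 2 : ℝ) ^ i.2 :=
    pow_le_pow_left₀ (by positivity) h4 _
  exact mul_le_mul h3 h5 (by positivity) (by positivity)

lemma Zeta_summable (s : ℂ) (hs : 3 ≤ s.re) :
    Summable (fun i : Nat.Primes × ℕ => (zW i : ℂ) * Complex.exp (-((uW i : ℂ) * s))) := by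
  refine Summable.of_norm_bounded zW_summable (fun i => ?_)
  rw [norm_mul, Complex.norm_real, Complex.norm_exp, Real.norm_of_nonneg (zW_pos i).le]
  apply mul_le_mul_of_nonneg_left _ (zW_pos i).le
  apply Real.exp_le_exp.2
  have h := uW_ge i
  simp
  nlinarith

lemma Zeta_term (s : ℂ) (p : Nat.Primes) (m : ℕ) :
    (zW (p, m) : ℂ) * Complex.exp (-((uW (p, m) : ℂ) * s)) =
      (((p : ℕ) : ℂ) ^ (-(1 + s))) ^ (m + 1) / ((m : ℂ) + 1) := by
  have hp : (0 : ℝ) < ((p : ℕ) : ℝ) := by exact_mod_cast p.2.pos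
  have hp' : ((p : ℕ) : ℂ) ≠ 0 := by
    exact_mod_cast p.2.ne_zero
  have hlog : Complex.log ((p : ℕ) : ℂ) = ((Real.log ((p : ℕ) : ℝ) : ℝ) : ℂ) := by
    rw [Complex.ofReal_log hp.le]
    norm_num
  have h1 : Complex.exp (-((uW (p, m) : ℂ) * s)) =
      (((p : ℕ) : ℂ) ^ (-s)) ^ (m + 1) := by
    rw [Complex.cpow_def_of_ne_zero hp', ← Complex.exp_nat_mul, hlog]
    unfold uW
    congr 1
    push_cast
    ring
  have h2 : ((p : ℕ) : ℂ) ^ (-(1 + s)) = (((p : ℕ) : ℂ))⁻¹ * ((p : ℕ) : ℂ) ^ (-s) := by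
    rw [neg_add, Complex.cpow_add _ _ hp', Complex.cpow_neg_one]
  rw [h1, h2, mul_pow]
  unfold zW
  push_cast
  have h3 : ((m : ℂ) + 1) ≠ 0 := Nat.cast_add_one_ne_zero m
  rw [inv_pow]
  field_simp

lemma Zeta_norm (p : Nat.Primes) (s : ℂ) (hs : 3 ≤ s.re) :
    ‖((p : ℕ) : ℂ) ^ (-(1 + s))‖ < 1 := by
  have hp : (2 : ℝ) ≤ ((p : ℕ) : ℝ) := by exact_mod_cast p.2.two_le
  rw [Complex.norm_natCast_cpow_of_pos p.2.pos]
  apply Real.rpow_lt_one_of_one_lt_of_neg (by linarith)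
  simp
  linarith

/-- `riemannZeta_eulerProduct_exp_log` and the Taylor series of `- log (1 - p^{-(1+s)})`. -/
theorem zeta_exp (s : ℂ) (hs : 3 ≤ s.re) :
    Complex.exp (∑' i : Nat.Primes × ℕ, (zW i : ℂ) * Complex.exp (-((uW i : ℂ) * s))) =
      riemannZeta (1 + s) := by
  have h1 : 1 < (1 + s).re := by
    simp
    linarith
  rw [← riemannZeta_eulerProduct_exp_log h1]
  congr 1
  have hfib : HasSum (fun p : Nat.Primes => -Complex.log (1 - ((p : ℕ) : ℂ) ^ (-(1 + s))))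
      (∑' i : Nat.Primes × ℕ, (zW i : ℂ) * Complex.exp (-((uW i : ℂ) * s))) := by
    refine (Zeta_summable s hs).hasSum.prod_fiberwise (fun p => ?_)
    refine (Complex.hasSum_taylorSeries_neg_log' (Zeta_norm p s hs)).congr_fun ?_
    intro m
    exact Zeta_term s p m
  exact hfib.tsum_eq.symm

/-- `riemannZeta_residue_one`, shifted. -/
theorem zeta_near :
    Tendsto (fun s : ℂ => s * riemannZeta (1 + s)) (𝓝[≠] 0) (𝓝 1) := by
  have h1 : Tendsto (fun s : ℂ => 1 + s) (𝓝[≠] 0) (𝓝[≠] 1) := by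
    apply tendsto_nhdsWithin_of_tendsto_nhds_of_eventually_within
    · have : Tendsto (fun s : ℂ => 1 + s) (𝓝 0) (𝓝 (1 + 0)) := by
        apply Continuous.tendsto
        fun_prop
      rw [add_zero] at this
      exact this.mono_left nhdsWithin_le_nhds
    · filter_upwards [self_mem_nhdsWithin] with s hs
      intro h
      apply hs
      have : 1 + s = 1 := h
      simpa using this
  refine (riemannZeta_residue_one.comp h1).congr ?_
  intro s
  simp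

end BSDG
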