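import Pool.Agent.W_92892g.Abs
import Pool.Agent.W_92892g.Zeta
import Pool.Agent.W_92892g.Rays
import Pool.Agent.W_92892c.NearZero

open MeasureTheory Set Filter Topology

namespace BSDG

open BSDS

/-- coefficients of `log (L(1+s) ζ(1+s)^r)` -/
noncomputable def cG (W : WeierstrassCurve ℤ) (r : ℕ) (i : Nat.Primes × ℕ) : ℂ :=
  ((cW W i + r * zW i : ℝ) : ℂ)

noncomputable def vG (θ : ℝ) (i : Nat.Primes × ℕ) : ℂ := Complex.exp (θ * Complex.I) * (uW i : ℂ)

theorem Main_cos_pos (θ : ℝ) (hθ : |θ| < Real.pi / 2) : 0 < Real.cos θ :=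
  Real.cos_pos_of_mem_Ioo ⟨(abs_lt.1 hθ).1, (abs_lt.1 hθ).2⟩

theorem Main_uW_pos (i : Nat.Primes × ℕ) : 0 < uW i := by
  have := uW_ge i
  linarith

theorem vG_re (θ : ℝ) (i : Nat.Primes × ℕ) : (vG θ i).re = Real.cos θ * uW i := by
  simp [vG, Complex.exp_ofReal_mul_I_re]

theorem vG_im (θ : ℝ) (i : Nat.Primes × ℕ) : (vG θ i).im = Real.sin θ * uW i := by
  simp [vG, Complex.exp_ofReal_mul_I_im]

theorem Main_tan (θ : ℝ) (hθ : |θ| < Real.pi / 2) :
    |Real.tan θ| * Real.cos θ = |Real.sin θ| := by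
  have h := Main_cos_pos θ hθ
  rw [Real.tan_eq_sin_div_cos, abs_div, abs_of_pos h]
  field_simp

theorem GHyp_G (W : WeierstrassCurve ℤ) (r : ℕ) (θ : ℝ) (hθ : |θ| < Real.pi / 2) :
    GHyp (cG W r) (vG θ) |Real.tan θ| (3 / Real.cos θ) := by
  have hc := Main_cos_pos θ hθ
  refine ⟨inferInstance, abs_nonneg _, by positivity, fun i => ?_, fun i => ?_, ?_⟩
  · rw [vG_re]
    exact mul_nonneg hc.le (Main_uW_pos i).le
  · rw [vG_re, vG_im, abs_mul, abs_of_pos (Main_uW_pos i), ← mul_assoc, Main_tan θ hθ]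
  · have h1 := (cW_summable W).add (zW_summable.mul_left (r : ℝ))
    refine Summable.of_nonneg_of_le (fun i => by positivity) (fun i => ?_) h1
    have h2 : 3 / Real.cos θ * (vG θ i).re = 3 * uW i := by
      rw [vG_re]
      field_simp
    have h3 : ‖cG W r i‖ ≤ |cW W i| + r * zW i := by
      rw [cG, Complex.norm_real, Real.norm_eq_abs]
      refine (abs_add_le _ _).trans (add_le_add le_rfl ?_)
      rw [abs_of_nonneg (mul_nonneg (Nat.cast_nonneg _) (zW_pos i).le)]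
    rw [h2]
    calc ‖cG W r i‖ * Real.exp (-(3 * uW i)) ≤
          (|cW W i| + r * zW i) * Real.exp (-(3 * uW i)) :=
          mul_le_mul_of_nonneg_right h3 (Real.exp_pos _).le
      _ = _ := by ring

theorem mlSum_eq (W : WeierstrassCurve ℤ) (r : ℕ) (θ X : ℝ) :
    mlSum W r θ X = Gs (cG W r) (vG θ) X := by
  unfold mlSum Gs
  refine tsum_congr fun i => ?_
  have h1 : (((psum (ap W i.1) (ep W i.1) (i.2 + 1) : ℝ) + r) /
      (((i.2 : ℝ) + 1) * (i.1 : ℝ) ^ (i.2 + 1)) : ℝ) = cW W i + r * zW i := by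
    rw [cW, zW]
    ring
  have h2 : Complex.exp (θ * Complex.I) * ((((i.2 : ℝ) + 1) * Real.log (i.1 : ℝ) / X : ℝ) : ℂ) =
      vG θ i / X := by
    rw [vG, uW]
    push_cast
    ring
  rw [cG, gw, ← h1, ← h2]

/-- `L(1 + e^{iθ}s) ζ(1 + e^{iθ}s)^r`. -/
noncomputable def FG (L : ℂ → ℂ) (r : ℕ) (θ : ℝ) (s : ℂ) : ℂ :=
  L (1 + Complex.exp (θ * Complex.I) * s) * riemannZeta (1 + Complex.exp (θ * Complex.I) * s) ^ r

theorem FG_diff (L : ℂ → ℂ) (hL : Differentiable ℂ L) (r : ℕ) (θ : ℝ) :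
    DifferentiableOn ℂ (FG L r θ) {0}ᶜ := by
  intro s hs
  have hs' : s ≠ 0 := hs
  have hne : 1 + Complex.exp (θ * Complex.I) * s ≠ 1 := by
    intro h
    rw [add_eq_left] at h
    exact (mul_ne_zero (Complex.exp_ne_zero _) hs') h
  have hlin : DifferentiableAt ℂ (fun s : ℂ => 1 + Complex.exp (θ * Complex.I) * s) s := by
    fun_prop
  have h1 : DifferentiableAt ℂ (fun s : ℂ => L (1 + Complex.exp (θ * Complex.I) * s)) s :=
    (hL _).comp s hlin
  have h2 : DifferentiableAt ℂ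
      (fun s : ℂ => riemannZeta (1 + Complex.exp (θ * Complex.I) * s)) s :=
    (differentiableAt_riemannZeta hne).comp s hlin
  exact (h1.mul (h2.pow r)).differentiableWithinAt

theorem Main_summable (c : Nat.Primes × ℕ → ℝ)
    (hc : Summable (fun i : Nat.Primes × ℕ => |c i| * Real.exp (-(3 * uW i)))) (z : ℂ)
    (hz : 3 ≤ z.re) :
    Summable (fun i : Nat.Primes × ℕ => (c i : ℂ) * Complex.exp (-((uW i : ℂ) * z))) := by
  refine Summable.of_norm_bounded hc fun i => ?_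
  rw [norm_mul, Complex.norm_real, Real.norm_eq_abs, Complex.norm_exp]
  refine mul_le_mul_of_nonneg_left (Real.exp_le_exp.2 ?_) (abs_nonneg _)
  rw [Complex.neg_re, Complex.re_ofReal_mul]
  have := Main_uW_pos i
  nlinarith

theorem FG_exp (W : WeierstrassCurve ℤ) (L : ℂ → ℂ)
    (hprod : ∀ s : ℂ, 3 / 2 < s.re → Tendsto (fun N : ℕ =>
      ∏ p ∈ (Finset.range N).filter Nat.Prime, (locFactor W p s)⁻¹) atTop (𝓝 (L s)))
    (r : ℕ) (θ : ℝ) (hθ : |θ| < Real.pi / 2) (s : ℂ)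
    (hs : 3 / Real.cos θ + |Real.tan θ| * |s.im| ≤ s.re) :
    FG L r θ s = Complex.exp (Es (cG W r) (vG θ) s) := by
  have hc := Main_cos_pos θ hθ
  set z : ℂ := Complex.exp (θ * Complex.I) * s with hz
  have hzre : 3 ≤ z.re := by
    have h1 : z.re = Real.cos θ * s.re - Real.sin θ * s.im := by
      rw [hz, Complex.mul_re, Complex.exp_ofReal_mul_I_re, Complex.exp_ofReal_mul_I_im]
    have h2 : Real.sin θ * s.im ≤ |Real.sin θ| * |s.im| := by
      rw [← abs_mul]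
      exact le_abs_self _
    have h3 := mul_le_mul_of_nonneg_left hs hc.le
    have h4 : Real.cos θ * (3 / Real.cos θ + |Real.tan θ| * |s.im|) =
        3 + |Real.sin θ| * |s.im| := by
      rw [← Main_tan θ hθ]
      field_simp
    rw [h1]
    linarith
  have hS1 := Main_summable (cW W) (cW_summable W) z hzre
  have hS2 := Main_summable zW (by
    refine zW_summable.congr fun i => ?_
    rw [abs_of_pos (zW_pos i)]) z hzre
  have hE : Es (cG W r) (vG θ) s = Dser (cW W) uW z +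
      r * ∑' i : Nat.Primes × ℕ, (zW i : ℂ) * Complex.exp (-((uW i : ℂ) * z)) := by
    unfold Es Dser
    rw [← tsum_mul_left, ← hS1.tsum_add (hS2.mul_left _)]
    refine tsum_congr fun i => ?_
    have h1 : vG θ i * s = (uW i : ℂ) * z := by
      rw [vG, hz]
      ring
    rw [h1, cG]
    push_cast
    ring
  rw [hE, Complex.exp_add, Complex.exp_nat_mul, zeta_exp z hzre, FG, ← hz,
    euler_exp W L hprod z hzre]

theorem FG_near (L : ℂ → ℂ) (n r : ℕ) (θ : ℝ) (ℓ : ℂ)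
    (h : Tendsto (fun s : ℂ => L (1 + s) / s ^ n) (𝓝[≠] 0) (𝓝 ℓ)) :
    Tendsto (fun s : ℂ => FG L r θ s / s ^ ((n : ℤ) - r)) (𝓝[≠] 0)
      (𝓝 (ℓ * Complex.exp (θ * Complex.I) ^ ((n : ℤ) - r))) := by
  set w : ℂ := Complex.exp (θ * Complex.I) with hw
  have hw0 : w ≠ 0 := Complex.exp_ne_zero _
  have hmul : Tendsto (fun s : ℂ => w * s) (𝓝[≠] 0) (𝓝[≠] 0) := by
    refine tendsto_nhdsWithin_iff.2 ⟨?_, ?_⟩
    · have : Tendsto (fun s : ℂ => w * s) (𝓝 0) (𝓝 (w * 0)) := by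
        exact (continuous_const.mul continuous_id).tendsto 0
      rw [mul_zero] at this
      exact this.mono_left nhdsWithin_le_nhds
    · filter_upwards [self_mem_nhdsWithin] with s hs
      exact mul_ne_zero hw0 hs
  have h1 := h.comp hmul
  have h2 := zeta_near.comp hmul
  have h3 := (h1.mul (h2.pow r)).mul_const (w ^ ((n : ℤ) - r))
  rw [one_pow, mul_one] at h3
  refine h3.congr' ?_
  filter_upwards [self_mem_nhdsWithin] with s hs
  have hs0 : s ≠ 0 := hs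
  have hws : w * s ≠ 0 := mul_ne_zero hw0 hs0
  simp only [Function.comp_apply]
  rw [FG, ← hw, zpow_sub₀ hw0, zpow_sub₀ hs0, zpow_natCast, zpow_natCast, zpow_natCast,
    zpow_natCast, mul_pow, mul_pow, mul_pow]
  field_simp

theorem Main_shift (L : ℂ → ℂ) (r : ℕ) (l : ℂ) :
    Tendsto (fun s : ℂ => L s / (s - 1) ^ r) (𝓝[≠] 1) (𝓝 l) ↔
      Tendsto (fun s : ℂ => L (1 + s) / s ^ r) (𝓝[≠] 0) (𝓝 l) := by
  have hmap : Filter.map (fun s : ℂ => 1 + s) (𝓝[≠] 0) = 𝓝[≠] 1 := by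
    have h := (Homeomorph.addLeft (1 : ℂ)).isEmbedding.map_nhdsWithin_eq {(0 : ℂ)}ᶜ 0
    simpa [Homeomorph.addLeft, Set.image_compl_eq (Homeomorph.addLeft (1 : ℂ)).bijective] using h
  rw [← hmap, Filter.tendsto_map'_iff]
  refine tendsto_congr fun s => ?_
  simp

theorem Main_order_lt (f : ℂ → ℂ) (n r : ℕ) (ℓ lam : ℂ) (hℓ : ℓ ≠ 0)
    (h1 : Tendsto (fun s : ℂ => f s / s ^ n) (𝓝[≠] 0) (𝓝 ℓ))
    (h2 : Tendsto (fun s : ℂ => f s / s ^ r) (𝓝[≠] 0) (𝓝 lam)) : ¬ n < r := by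
  intro hlt
  have h3 : Tendsto (fun s : ℂ => s ^ (r - n)) (𝓝[≠] 0) (𝓝 0) := by
    have : Tendsto (fun s : ℂ => s ^ (r - n)) (𝓝 0) (𝓝 (0 ^ (r - n))) :=
      (continuous_pow (r - n)).tendsto 0
    rw [zero_pow (by omega)] at this
    exact this.mono_left nhdsWithin_le_nhds
  have h4 := h2.mul h3
  rw [mul_zero] at h4
  refine hℓ (tendsto_nhds_unique (h1.congr' ?_) h4)
  filter_upwards [self_mem_nhdsWithin] with s hs
  have hs0 : s ≠ 0 := hs
  have : s ^ r = s ^ n * s ^ (r - n) := by rw [← pow_add]; congr 1; omega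
  rw [this]
  field_simp

theorem main_iff (W : WeierstrassCurve ℤ) (L : ℂ → ℂ) (hL : Differentiable ℂ L)
    (hprod : ∀ s : ℂ, 3 / 2 < s.re → Tendsto (fun N : ℕ =>
      ∏ p ∈ (Finset.range N).filter Nat.Prime, (locFactor W p s)⁻¹) atTop (𝓝 (L s)))
    (r : ℕ) (lam : ℂ) (hlam : lam ≠ 0) (θ : ℝ) (hθ : |θ| < Real.pi / 2) :
    Tendsto (fun X : ℝ => Complex.exp (mlSum W r θ X)) atTop (𝓝 lam) ↔
      Tendsto (fun s : ℂ => L s / (s - 1) ^ r) (𝓝[≠] 1) (𝓝 lam) ∧
        ∀ x : ℝ, 0 < x → L (1 + x * Complex.exp (θ * Complex.I)) ≠ 0 := by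
  have hc := Main_cos_pos θ hθ
  have hL' : Differentiable ℂ (fun s => L (1 + s)) := by
    intro s
    exact (hL _).comp s (by fun_prop)
  have h3 : L (1 + 3) ≠ 0 := by
    rw [euler_exp W L hprod 3 (by norm_num)]
    exact Complex.exp_ne_zero _
  obtain ⟨n, ℓ, hℓ, hn⟩ := exists_order (fun s => L (1 + s)) hL' 3 h3
  have hw0 : Complex.exp (θ * Complex.I) ≠ 0 := Complex.exp_ne_zero _
  have hmain := abstract_thm (GHyp_G W r θ hθ) (FG L r θ) (FG_diff L hL r θ)
    (fun s hs => FG_exp W L hprod r θ hθ s hs) ((n : ℤ) - r)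
    (ℓ * Complex.exp (θ * Complex.I) ^ ((n : ℤ) - r)) (mul_ne_zero hℓ (zpow_ne_zero _ hw0))
    (FG_near L n r θ ℓ hn) lam hlam
  have hfun : (fun X : ℝ => Complex.exp (mlSum W r θ X)) =
      fun X : ℝ => Complex.exp (Gs (cG W r) (vG θ) X) := by
    funext X
    rw [mlSum_eq]
  rw [hfun, hmain, Main_shift]
  refine and_congr ?_ (forall_congr' fun x => forall_congr' fun hx => ?_)
  · constructor
    · rintro ⟨h1, h2⟩
      have hnr : n = r := by omega
      subst hnr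
      rw [h1, zpow_zero, mul_one] at h2
      rwa [← h2]
    · intro h
      have h1 := Main_order_lt (fun s => L (1 + s)) n r ℓ lam hℓ hn h
      have h2 := Main_order_lt (fun s => L (1 + s)) r n lam ℓ hlam h hn
      have hnr : n = r := by omega
      subst hnr
      refine ⟨by omega, ?_⟩
      rw [sub_self, zpow_zero, mul_one]
      exact tendsto_nhds_unique hn h
  · have h1 : riemannZeta (1 + Complex.exp (θ * Complex.I) * x) ≠ 0 := by
      refine riemannZeta_ne_zero_of_one_lt_re ?_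
      rw [Complex.add_re, Complex.one_re, mul_comm, Complex.re_ofReal_mul,
        Complex.exp_ofReal_mul_I_re]
      have := mul_pos hx hc
      linarith
    rw [FG, mul_comm (x : ℂ)]
    simp only [ne_eq, mul_eq_zero, not_or]
    exact ⟨fun h => h.1, fun h => ⟨h, pow_ne_zero _ h1⟩⟩

end BSDG
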