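import Pool.Agent.W_92892g.GInv

open MeasureTheory Set

namespace BSDG

variable {ι : Type} {c v : ι → ℂ} {K a : ℝ}

theorem Mg_nonneg (H : GHyp c v K a) : 0 ≤ Mg c v a := by
  have _ := H
  exact tsum_nonneg fun i => by positivity

/-- `Re (v s) ≥ Re v (Re s - K |Im s|) ≥ a Re v`. -/
theorem term_le (H : GHyp c v K a) (s : ℂ) (hs : a + K * |s.im| ≤ s.re) (i : ι) :
    ‖c i * Complex.exp (-(v i * s))‖ ≤ ‖c i‖ * Real.exp (-(a * (v i).re)) := by
  rw [norm_mul, Complex.norm_exp]
  refine mul_le_mul_of_nonneg_left (Real.exp_le_exp.2 ?_) (norm_nonneg _)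
  rw [Complex.neg_re, Complex.mul_re]
  refine neg_le_neg ?_
  have h1 := H.vre i
  have h2 := H.vim i
  have h3 : (v i).im * s.im ≤ K * (v i).re * |s.im| := by
    calc (v i).im * s.im ≤ |(v i).im * s.im| := le_abs_self _
      _ = |(v i).im| * |s.im| := abs_mul _ _
      _ ≤ K * (v i).re * |s.im| := mul_le_mul_of_nonneg_right h2 (abs_nonneg _)
  have h4 : (v i).re * (a + K * |s.im|) ≤ (v i).re * s.re := mul_le_mul_of_nonneg_left hs h1
  nlinarith

theorem Es_summable (H : GHyp c v K a) (s : ℂ) (hs : a + K * |s.im| ≤ s.re) :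
    Summable (fun i => c i * Complex.exp (-(v i * s))) :=
  Summable.of_norm_bounded H.sm (term_le H s hs)

theorem Es_bound (H : GHyp c v K a) (s : ℂ) (hs : a + K * |s.im| ≤ s.re) :
    ‖Es c v s‖ ≤ Mg c v a :=
  tsum_of_norm_bounded H.sm.hasSum (term_le H s hs)

theorem Es_continuousOn (H : GHyp c v K a) :
    ContinuousOn (Es c v) {s : ℂ | a + K * |s.im| ≤ s.re} := by
  refine continuousOn_tsum (fun i => ?_) H.sm fun i s hs => term_le H s hs i
  exact Continuous.continuousOn (by fun_prop)

/-- the points of the line are in the domain of absolute convergence -/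
theorem Series_dom (H : GHyp c v K a) (b X : ℝ) (hb : 1 ≤ b) (hX : 0 < X)
    (hbX : a * X + K * (Real.pi / 2) ≤ Real.log b) (y : ℝ) :
    a + K * |(Complex.log (tl b y) / X).im| ≤ (Complex.log (tl b y) / X).re := by
  have hb0 : 0 < b := by linarith
  rw [logtl_im, logtl_re, abs_div, abs_of_pos hX, ← mul_le_mul_iff_left₀ hX]
  have h1 : (a + K * (|(tl b y).arg| / X)) * X = a * X + K * |(tl b y).arg| := by field_simp
  have h2 : Real.log ‖tl b y‖ / X * X = Real.log ‖tl b y‖ := by field_simp
  rw [h1, h2]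
  have h3 : K * |(tl b y).arg| ≤ K * (Real.pi / 2) :=
    mul_le_mul_of_nonneg_left (abs_arg_tl b y hb0).le H.K0
  have h4 : Real.log b ≤ Real.log ‖tl b y‖ := Real.log_le_log hb0 (le_norm_tl b y hb0.le)
  linarith

/-- termwise integration -/
theorem Series_hasSum (H : GHyp c v K a) (b X : ℝ) (hb : 1 ≤ b) (hX : 0 < X)
    (hbX : a * X + K * (Real.pi / 2) ≤ Real.log b) :
    HasSum (fun i => ∫ y : ℝ, ker (tl b y) * (c i * Complex.exp (-(v i * (Complex.log (tl b y) / X)))))
      (∫ y : ℝ, ∑' i, ker (tl b y) * (c i * Complex.exp (-(v i * (Complex.log (tl b y) / X))))) := by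
  have hb0 : 0 < b := by linarith
  have := H.cnt
  have hle : ∀ (i : ι) (y : ℝ), ‖c i * Complex.exp (-(v i * (Complex.log (tl b y) / X)))‖ ≤
      ‖c i‖ * Real.exp (-(a * (v i).re)) := fun i y => term_le H _ (Series_dom H b X hb hX hbX y) i
  have hint : ∀ i, Integrable (fun y : ℝ =>
      ker (tl b y) * (c i * Complex.exp (-(v i * (Complex.log (tl b y) / X))))) := by
    intro i
    refine ker_mul_integrable b hb (fun y : ℝ =>
      c i * Complex.exp (-(v i * (Complex.log (tl b y) / X)))) ?_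
      (‖c i‖ * Real.exp (-(a * (v i).re))) fun y => ?_
    · have h1 := logtl_cont b hb0
      fun_prop
    · refine (hle i y).trans ?_
      have h1 : 0 ≤ ‖c i‖ * Real.exp (-(a * (v i).re)) := by positivity
      have h2 := norm_nonneg (Complex.log (tl b y))
      nlinarith [mul_nonneg h1 h2]
  refine hasSum_integral_of_summable_integral_norm hint ?_
  refine Summable.of_nonneg_of_le (fun i => integral_nonneg fun y => norm_nonneg _) (fun i => ?_)
    (H.sm.mul_left (∫ y : ℝ, ‖ker (tl b y)‖))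
  rw [← integral_mul_const]
  refine integral_mono (hint i).norm ((ker_integrable b hb).norm.mul_const _) fun y => ?_
  simp only [norm_mul (ker (tl b y))]
  exact mul_le_mul_of_nonneg_left (hle i y) (norm_nonneg _)

/-- the terms -/
theorem Series_term (H : GHyp c v K a) (b X : ℝ) (hb : 1 ≤ b) (hX : 0 < X) (i : ι) :
    ((1 / (2 * Real.pi) : ℝ) : ℂ) *
      (∫ y : ℝ, ker (tl b y) * (c i * Complex.exp (-(v i * (Complex.log (tl b y) / X))))) =
      c i * gw (v i / X) := by
  rw [gw_LT (v i) (H.vre i) b X hb hX, LT]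
  have h1 : (∫ y : ℝ, ker (tl b y) * (c i * Complex.exp (-(v i * (Complex.log (tl b y) / X))))) =
      c i * ∫ y : ℝ, ker (tl b y) * Complex.exp (-(v i * (Complex.log (tl b y) / X))) := by
    rw [← integral_const_mul]
    refine integral_congr_ae (Filter.Eventually.of_forall fun y => ?_)
    simp only []
    ring
  rw [h1]
  ring

/-- Termwise integration (`integral_tsum` or `hasSum_integral_of_summable_integral_norm`):
the terms are at most `‖c i‖ e^{-(Re v i/X) (log ‖t‖ - K π/2)} e^b/(1+y²)`. -/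
theorem Gs_eq (H : GHyp c v K a) (b X : ℝ) (hb : 1 ≤ b) (hX : 0 < X)
    (hbX : a * X + K * (Real.pi / 2) ≤ Real.log b) : Gs c v X = LT (Es c v) b X := by
  have h1 := (Series_hasSum H b X hb hX hbX).mul_left ((1 / (2 * Real.pi) : ℝ) : ℂ)
  simp only [Series_term H b X hb hX] at h1
  rw [Gs, h1.tsum_eq, LT]
  congr 1
  refine integral_congr_ae (Filter.Eventually.of_forall fun y => ?_)
  simp only [Es]
  rw [tsum_mul_left]

/-- `‖gw (v/X)‖ ≤ C e^{-a Re v}` from `gw_LT` with a large `b` (`norm_exp_log`,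
`ker_norm_le`). -/
theorem Gs_summable (H : GHyp c v K a) (X : ℝ) (hX : 0 < X) :
    Summable (fun i => c i * gw (v i / X)) := by
  have hK := H.K0
  have ha := H.apos
  have hpi := Real.pi_pos
  have hb : 1 ≤ Real.exp (a * X + K * (Real.pi / 2)) := Real.one_le_exp (by positivity)
  have h1 := (Series_hasSum H _ X hb hX (by rw [Real.log_exp])).mul_left
    ((1 / (2 * Real.pi) : ℝ) : ℂ)
  simp only [Series_term H _ X hb hX] at h1
  exact h1.summable

end BSDG
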